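import Mathlib

open ComplexConjugate

namespace Pool.Agent.Helper40.Ptak

/-- Pseudohyperbolic distance. -/
noncomputable def pd (x y : ℂ) : ℝ := ‖x - y‖ / ‖1 - conj x * y‖

/-- Moebius map sending `z` to `0`. -/
noncomputable def mob (z x : ℂ) : ℂ := (x - z) / (1 - conj z * x)

lemma den_ne {x y : ℂ} (hx : ‖x‖ < 1) (hy : ‖y‖ < 1) : 1 - conj x * y ≠ 0 := by
  intro h
  have h1 : conj x * y = 1 := by linear_combination -h
  have h2 : ‖x‖ * ‖y‖ = 1 := by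
    have := congrArg norm h1
    simpa using this
  have := norm_nonneg x
  have := norm_nonneg y
  nlinarith

lemma sq_id (x y : ℂ) : ‖1 - conj x * y‖ ^ 2 - ‖x - y‖ ^ 2 = (1 - ‖x‖ ^ 2) * (1 - ‖y‖ ^ 2) := by
  simp only [← Complex.normSq_eq_norm_sq]
  simp only [Complex.normSq_apply, Complex.sub_re, Complex.sub_im, Complex.mul_re, Complex.mul_im,
    Complex.conj_re, Complex.conj_im, Complex.one_re, Complex.one_im]
  ring

lemma pd_nonneg (x y : ℂ) : 0 ≤ pd x y := by unfold pd; positivity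

lemma pd_comm (x y : ℂ) : pd x y = pd y x := by
  unfold pd
  rw [norm_sub_rev x y]
  congr 1
  rw [← RCLike.norm_conj (1 - conj x * y)]
  simp [mul_comm]

lemma one_sub_pd_sq {x y : ℂ} (hx : ‖x‖ < 1) (hy : ‖y‖ < 1) :
    1 - pd x y ^ 2 = (1 - ‖x‖ ^ 2) * (1 - ‖y‖ ^ 2) / ‖1 - conj x * y‖ ^ 2 := by
  have h := norm_pos_iff.mpr (den_ne hx hy)
  rw [← sq_id x y, pd, div_pow, sub_div, div_self (by positivity)]

lemma pd_lt_one {x y : ℂ} (hx : ‖x‖ < 1) (hy : ‖y‖ < 1) : pd x y < 1 := by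
  have h := norm_pos_iff.mpr (den_ne hx hy)
  have h1 := one_sub_pd_sq hx hy
  have hx0 := norm_nonneg x
  have hy0 := norm_nonneg y
  have h2 : 0 < (1 - ‖x‖ ^ 2) * (1 - ‖y‖ ^ 2) / ‖1 - conj x * y‖ ^ 2 := by
    have : 0 < 1 - ‖x‖ ^ 2 := by nlinarith
    have : 0 < 1 - ‖y‖ ^ 2 := by nlinarith
    positivity
  have := pd_nonneg x y
  nlinarith

lemma norm_mob (z x : ℂ) : ‖mob z x‖ = pd z x := by
  rw [mob, pd, norm_div, norm_sub_rev]

lemma mob_lt_one {x y : ℂ} (hx : ‖x‖ < 1) (hy : ‖y‖ < 1) : ‖mob x y‖ < 1 := by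
  rw [norm_mob]; exact pd_lt_one hx hy

lemma pd_mob {z x y : ℂ} (hz : ‖z‖ < 1) (hx : ‖x‖ < 1) (hy : ‖y‖ < 1) :
    pd (mob z x) (mob z y) = pd x y := by
  have h1 := den_ne hz hx
  have h2 := den_ne hz hy
  have h3 := den_ne hx hy
  have h1' : 1 - z * conj x ≠ 0 := by
    have := den_ne hx hz
    rwa [mul_comm] at this
  have h1'' : 1 - x * conj z ≠ 0 := by rwa [mul_comm] at h1
  have h2'' : 1 - y * conj z ≠ 0 := by rwa [mul_comm] at h2
  have h4'' : 1 - conj x * z ≠ 0 := den_ne hx hz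
  have hzz : (1 - conj z * z) ≠ 0 := den_ne hz hz
  have e1 : mob z x - mob z y = (1 - conj z * z) * (x - y) / ((1 - conj z * x) * (1 - conj z * y)) := by
    unfold mob
    field_simp
    ring
  have e2 : 1 - conj (mob z x) * mob z y
      = (1 - conj z * z) * (1 - conj x * y) / ((1 - z * conj x) * (1 - conj z * y)) := by
    unfold mob
    simp only [map_div₀, map_sub, map_mul, map_one, Complex.conj_conj]
    field_simp
    ring
  have e3 : ‖1 - z * conj x‖ = ‖1 - conj z * x‖ := by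
    rw [← RCLike.norm_conj (1 - z * conj x)]
    simp
  unfold pd
  rw [e1, e2]
  simp only [norm_div, norm_mul]
  rw [e3]
  have n1 := norm_pos_iff.mpr h1
  have n2 := norm_pos_iff.mpr h2
  have n3 := norm_pos_iff.mpr h3
  have n4 := norm_pos_iff.mpr hzz
  field_simp

lemma pd_le_add_norm {x y : ℂ} (hx : ‖x‖ < 1) (hy : ‖y‖ < 1) :
    pd x y ≤ (‖x‖ + ‖y‖) / (1 + ‖x‖ * ‖y‖) := by
  have hx0 := norm_nonneg x
  have hy0 := norm_nonneg y
  have h1 := one_sub_pd_sq hx hy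
  have hd := norm_pos_iff.mpr (den_ne hx hy)
  have hle : ‖1 - conj x * y‖ ≤ 1 + ‖x‖ * ‖y‖ := by
    calc ‖1 - conj x * y‖ ≤ ‖(1 : ℂ)‖ + ‖conj x * y‖ := norm_sub_le _ _
      _ = _ := by simp
  have hle2 : ‖1 - conj x * y‖ ^ 2 ≤ (1 + ‖x‖ * ‖y‖) ^ 2 := by gcongr
  have hpos1 : 0 < 1 - ‖x‖ ^ 2 := by nlinarith
  have hpos2 : 0 < 1 - ‖y‖ ^ 2 := by nlinarith
  have h2 : (1 - ‖x‖ ^ 2) * (1 - ‖y‖ ^ 2) / (1 + ‖x‖ * ‖y‖) ^ 2
      ≤ (1 - ‖x‖ ^ 2) * (1 - ‖y‖ ^ 2) / ‖1 - conj x * y‖ ^ 2 := by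
    gcongr
  have h3 : 1 - ((‖x‖ + ‖y‖) / (1 + ‖x‖ * ‖y‖)) ^ 2
      = (1 - ‖x‖ ^ 2) * (1 - ‖y‖ ^ 2) / (1 + ‖x‖ * ‖y‖) ^ 2 := by
    field_simp
    ring
  have h4 : pd x y ^ 2 ≤ ((‖x‖ + ‖y‖) / (1 + ‖x‖ * ‖y‖)) ^ 2 := by linarith
  exact (pow_le_pow_iff_left₀ (pd_nonneg _ _) (by positivity) two_ne_zero).mp h4

lemma pd_triangle {x y z : ℂ} (hx : ‖x‖ < 1) (hy : ‖y‖ < 1) (hz : ‖z‖ < 1) :
    pd x y ≤ (pd x z + pd z y) / (1 + pd x z * pd z y) := by
  have h := pd_le_add_norm (mob_lt_one hz hx) (mob_lt_one hz hy)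
  rw [pd_mob hz hx hy, norm_mob, norm_mob, pd_comm z x] at h
  exact h

/-- The geodesic midpoint lemma: equality in the Schwarz-Pick inequality at two distinct points of
the closed disc of radius `p` propagates to an interior point. -/
lemma geo {p : ℝ} (hp : p < 1) (F : ℂ → ℂ) (hF : ∀ z, ‖z‖ ≤ p → ‖F z‖ < 1)
    (hc : ∀ z w, ‖z‖ ≤ p → ‖w‖ ≤ p → pd (F z) (F w) ≤ pd z w)
    {α β : ℂ} (hα : ‖α‖ ≤ p) (hβ : ‖β‖ ≤ p) (hne : α ≠ β) (heq : pd (F β) (F α) = pd β α) :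
    ∃ z, ‖z‖ < p ∧ z ≠ β ∧ pd (F β) (F z) = pd β z := by
  have hα1 : ‖α‖ < 1 := lt_of_le_of_lt hα hp
  have hβ1 : ‖β‖ < 1 := lt_of_le_of_lt hβ hp
  set c := mob β α with hcdef
  have hc1 : ‖c‖ < 1 := mob_lt_one hβ1 hα1
  have hd1 := den_ne hβ1 hα1
  have hc0 : c ≠ 0 := by
    rw [hcdef, mob]
    exact div_ne_zero (sub_ne_zero.mpr hne) hd1
  have hcpos := norm_pos_iff.mpr hc0
  -- relation between c and α
  have hbb : (1 - conj β * β) ≠ 0 := den_ne hβ1 hβ1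
  have hd1' : 1 - α * conj β ≠ 0 := by rwa [mul_comm] at hd1
  have hcα : (c + β) = α * (1 + conj β * c) := by
    rw [hcdef, mob]
    field_simp
    ring
  have hhalf : ‖c / 2‖ < 1 := by
    rw [norm_div]
    have : ‖(2 : ℂ)‖ = 2 := by simp
    rw [this]
    linarith
  have hden : 1 + conj β * (c / 2) ≠ 0 := by
    have := den_ne hβ1 (y := -(c / 2)) (by simpa using hhalf)
    intro h
    apply this
    rw [← h]
    ring
  set z := (c / 2 + β) / (1 + conj β * (c / 2)) with hz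
  have hzlt : ‖z‖ < p := by
    have hp0 : 0 ≤ p := (norm_nonneg β).trans hβ
    have k1 : ‖c / 2 + β‖ ^ 2 = (‖β‖ ^ 2 + ‖c + β‖ ^ 2) / 2 - ‖c‖ ^ 2 / 4 := by
      simp only [← Complex.normSq_eq_norm_sq]
      simp [Complex.normSq_apply]
      ring
    have k2 : ‖1 + conj β * (c / 2)‖ ^ 2 = (1 + ‖1 + conj β * c‖ ^ 2) / 2 - ‖β‖ ^ 2 * ‖c‖ ^ 2 / 4 := by
      simp only [← Complex.normSq_eq_norm_sq]
      simp [Complex.normSq_apply]
      ring
    have k3 : ‖c + β‖ ^ 2 ≤ p ^ 2 * ‖1 + conj β * c‖ ^ 2 := by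
      rw [hcα, norm_mul, mul_pow]
      gcongr
    have k4 : ‖β‖ ^ 2 ≤ p ^ 2 := by gcongr
    have k5 : p ^ 2 * ‖β‖ ^ 2 < 1 := by
      have := norm_nonneg β
      have : ‖β‖ ^ 2 < 1 := by nlinarith
      have : p ^ 2 < 1 := by nlinarith
      nlinarith [sq_nonneg p]
    have k6 : ‖c / 2 + β‖ ^ 2 < (p * ‖1 + conj β * (c / 2)‖) ^ 2 := by
      rw [mul_pow, k1, k2]
      have : 0 < ‖c‖ ^ 2 * (1 - p ^ 2 * ‖β‖ ^ 2) := by
        apply mul_pos (by positivity)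
        linarith
      nlinarith
    have k7 : ‖c / 2 + β‖ < p * ‖1 + conj β * (c / 2)‖ :=
      lt_of_pow_lt_pow_left₀ 2 (by positivity) k6
    rw [hz, norm_div, div_lt_iff₀ (norm_pos_iff.mpr hden)]
    exact k7
  have hz1 : ‖z‖ < 1 := hzlt.trans hp
  have hmz : mob β z = c / 2 := by
    have hne' : (1 + conj β * (c / 2)) - conj β * (c / 2 + β) ≠ 0 := by
      intro h
      apply hbb
      rw [← h]
      ring
    rw [mob, hz]
    generalize hD : 1 + conj β * (c / 2) = D at hden hne'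
    rw [div_sub' hden, mul_div_assoc', one_sub_div hden, div_div_div_cancel_right₀ hden]
    rw [div_eq_iff hne', ← hD]
    ring
  have hpz : pd β z = ‖c‖ / 2 := by
    rw [← norm_mob, hmz]; simp
  have hpa : pd β α = ‖c‖ := by rw [← norm_mob]
  have hza : pd z α = (‖c‖ / 2) / (1 - ‖c‖ ^ 2 / 2) := by
    rw [← pd_mob hβ1 hz1 hα1, hmz, ← hcdef, pd]
    congr 1
    · have : c / 2 - c = -(c / 2) := by ring
      rw [this]
      simp
    · have : 1 - conj (c / 2) * c = ((1 - ‖c‖ ^ 2 / 2 : ℝ) : ℂ) := by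
        have h1 : conj c * c = ((‖c‖ : ℝ) : ℂ) ^ 2 := Complex.conj_mul' c
        rw [map_div₀]
        push_cast
        have h2 : conj (2 : ℂ) = 2 := Complex.conj_ofNat 2
        rw [h2]
        linear_combination -(1 / 2 : ℂ) * h1
      rw [this, Complex.norm_real, Real.norm_eq_abs, abs_of_pos]
      nlinarith
  refine ⟨z, hzlt, ?_, ?_⟩
  · intro h
    rw [h] at hmz
    simp [mob] at hmz
    exact hc0 (by linear_combination -2 * hmz)
  · have t1 := hc β z hβ hzlt.le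
    have t2 := hc z α hzlt.le hα
    have t3 := pd_triangle (hF β hβ) (hF α hα) (hF z hzlt.le)
    rw [heq, hpa] at t3
    rw [hpz] at t1 ⊢
    rw [hza] at t2
    set A := pd (F β) (F z) with hA
    set B := pd (F z) (F α) with hB
    set C := ‖c‖ with hC
    have hA0 : 0 ≤ A := pd_nonneg _ _
    have hB0 : 0 ≤ B := pd_nonneg _ _
    by_contra hne2
    have hlt : A < C / 2 := lt_of_le_of_ne t1 hne2
    have hC2 : 0 < 1 - C ^ 2 / 2 := by nlinarith
    rw [le_div_iff₀ hC2] at t2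
    rw [le_div_iff₀ (by positivity)] at t3
    -- C (1 + A B) ≤ A + B
    have hB1 : B < 1 := by
      by_contra hB2
      push Not at hB2
      nlinarith
    have hBC : 0 < 1 - B * C := by nlinarith
    have := mul_pos (sub_pos.mpr hlt) hBC
    nlinarith

end Pool.Agent.Helper40.Ptak
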