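import Pool.Agent.Helper40.Ptak.Model

open Polynomial ComplexConjugate

namespace Pool.Agent.Helper40.Ptak

lemma down_ann {H : Type} [NormedAddCommGroup H] [InnerProductSpace ℂ H] [FiniteDimensional ℂ H]
    (a : H →L[ℂ] H) (α : ℂ) (ℓ : List ℂ) (hann : aeval a (nodePoly (α :: ℓ)) = 0) :
    aeval ((ker' a α)ᗮ.orthogonalProjection.comp (a.comp (ker' a α)ᗮ.subtypeL)) (nodePoly ℓ)
      = 0 := by
  have hb := down_block a α
  set r := ((ker' a α).orthogonalProjection.comp (a.comp (ker' a α)ᗮ.subtypeL)) with hr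
  set T := ((ker' a α)ᗮ.orthogonalProjection.comp (a.comp (ker' a α)ᗮ.subtypeL)) with hTdef
  ext y
  obtain ⟨s, hs⟩ := hb.aeval_j_ex (nodePoly ℓ) y
  have h1 : aeval a (nodePoly ℓ) ((ker' a α)ᗮ.subtypeₗᵢ y) ∈ ker' a α := by
    rw [mem_ker']
    have h2 : aeval a (nodePoly (α :: ℓ)) ((ker' a α)ᗮ.subtypeₗᵢ y) = 0 := by
      rw [hann]; rfl
    rw [nodePoly_cons] at h2
    simpa [sub_mul, sub_eq_zero] using h2
  have h3 : ((aeval T (nodePoly ℓ) y : (ker' a α)ᗮ) : H) ∈ ker' a α := by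
    have h4 : ((aeval T (nodePoly ℓ) y : (ker' a α)ᗮ) : H)
      = aeval a (nodePoly ℓ) ((ker' a α)ᗮ.subtypeₗᵢ y) - (s : H) := by
      rw [hs]; simp
    rw [h4]
    exact Submodule.sub_mem _ h1 s.2
  have h5 : ((aeval T (nodePoly ℓ) y : (ker' a α)ᗮ) : H) = 0 := by
    have h6 := Submodule.inner_right_of_mem_orthogonal h3 (aeval T (nodePoly ℓ) y).2
    simpa using h6
  exact_mod_cast h5

/-- The model operator dominates every contraction annihilated by `(X - α)^n`. -/
lemma model_dom (n : ℕ) {α : ℂ} (hα : ‖α‖ < 1) : ∀ {P Q : ℂ[X]}, Q.eval α ≠ 0 →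
    (∀ x, ‖aeval (model n α) P x‖ ≤ ‖aeval (model n α) Q x‖) →
    ∀ (H : Type) [NormedAddCommGroup H] [InnerProductSpace ℂ H] [FiniteDimensional ℂ H]
      (a : H →L[ℂ] H), ‖a‖ ≤ 1 → aeval a (nodePoly (List.replicate n α)) = 0 →
      ∀ x, ‖aeval a P x‖ ≤ ‖aeval a Q x‖ := by
  induction n with
  | zero =>
    intro P Q _ _ H _ _ _ a _ hann x
    have : x = 0 := by
      have h := congrArg (fun f => f x) hann
      simpa using h
    simp [this]
  | succ n ih =>
    -- first the strict case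
    have strict : ∀ {P Q : ℂ[X]}, ‖P.eval α‖ < ‖Q.eval α‖ →
        (∀ x, ‖aeval (model (n + 1) α) P x‖ ≤ ‖aeval (model (n + 1) α) Q x‖) →
        ∀ (H : Type) [NormedAddCommGroup H] [InnerProductSpace ℂ H] [FiniteDimensional ℂ H]
          (a : H →L[ℂ] H), ‖a‖ ≤ 1 → aeval a (nodePoly (List.replicate (n + 1) α)) = 0 →
          ∀ x, ‖aeval a P x‖ ≤ ‖aeval a Q x‖ := by
      intro P Q hd hm H _ _ _ a ha hann x
      have hQ1 : (Q1 P Q α).eval α ≠ 0 := by
        rw [Q1_eval, Complex.conj_mul', Complex.conj_mul']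
        have h0 : (‖Q.eval α‖ : ℂ) ^ 2 - (‖P.eval α‖ : ℂ) ^ 2
            = ((‖Q.eval α‖ ^ 2 - ‖P.eval α‖ ^ 2 : ℝ) : ℂ) := by push_cast; rfl
        rw [h0]
        have : 0 < ‖Q.eval α‖ ^ 2 - ‖P.eval α‖ ^ 2 := by
          have := norm_nonneg (P.eval α)
          nlinarith
        exact_mod_cast this.ne'
      -- the model step
      have hstep : ∀ y, ‖aeval (model n α) (P1 P Q α) y‖ ≤ ‖aeval (model n α) (Q1 P Q α) y‖ := by
        intro y
        have hb := model_block n α
        have hδ : 0 < ‖Q.eval α‖ ^ 2 - ‖P.eval α‖ ^ 2 := by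
          have := norm_nonneg (P.eval α)
          nlinarith
        set δ := ‖Q.eval α‖ ^ 2 - ‖P.eval α‖ ^ 2 with hδdef
        set t := conj (Q.eval α) • mr n α (aeval (model n α) (Q /ₘ (X - C α)) y)
            - conj (P.eval α) • mr n α (aeval (model n α) (P /ₘ (X - C α)) y) with ht
        have hδ' : (δ : ℂ) ≠ 0 := by exact_mod_cast hδ.ne'
        have key := hb.key P Q (-((δ : ℂ)⁻¹ * t)) y
        rw [← hδdef, ← ht, mr_sq n hα.le] at key
        have e0 : (δ : ℂ) • (-((δ : ℂ)⁻¹ * t)) + t = 0 := by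
          rw [smul_eq_mul]
          field_simp
          ring
        rw [e0] at key
        have hdom := hm (mi n (-((δ : ℂ)⁻¹ * t)) + mj n y)
        have h2 : ‖aeval (model (n + 1) α) P (mi n (-((δ : ℂ)⁻¹ * t)) + mj n y)‖ ^ 2
            ≤ ‖aeval (model (n + 1) α) Q (mi n (-((δ : ℂ)⁻¹ * t)) + mj n y)‖ ^ 2 := by gcongr
        have h3 : 0 ≤ δ * (‖aeval (model (n + 1) α) Q (mi n (-((δ : ℂ)⁻¹ * t)) + mj n y)‖ ^ 2
          - ‖aeval (model (n + 1) α) P (mi n (-((δ : ℂ)⁻¹ * t)) + mj n y)‖ ^ 2) :=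
          mul_nonneg hδ.le (by linarith)
        rw [key] at h3
        simp only [norm_zero] at h3
        exact (pow_le_pow_iff_left₀ (norm_nonneg _) (norm_nonneg _) two_ne_zero).mp (by linarith)
      rw [List.replicate_succ] at hann
      have hb := down_block a α
      have hannT := down_ann a α _ hann
      have hT := hb.contraction_T ha
      obtain ⟨s, hs, y, hy, hxsy⟩ := (ker' a α).exists_add_mem_mem_orthogonal x
      have hx' : x = (ker' a α).subtypeₗᵢ ⟨s, hs⟩ + (ker' a α)ᗮ.subtypeₗᵢ ⟨y, hy⟩ := by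
        simpa using hxsy
      rw [hx']
      exact hb.dom_up P Q hd (hb.r_le ha hα) ⟨s, hs⟩ ⟨y, hy⟩
        (ih hQ1 hstep _ _ hT hannT ⟨y, hy⟩)
    intro P Q hQ hm H _ _ _ a ha hann x
    -- general case by perturbation
    have hPQ : ‖P.eval α‖ ≤ ‖Q.eval α‖ := by
      have h := hm (mi n 1)
      rw [(model_block n α).aeval_i, (model_block n α).aeval_i, norm_smul, norm_smul] at h
      simpa using h
    have key : ∀ t : ℝ, 1 < t → ‖aeval a P x‖ ≤ t * ‖aeval a Q x‖ := by
      intro t ht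
      have h1 := strict (P := P) (Q := C (t : ℂ) * Q) (by
        rw [eval_mul, eval_C, norm_mul, Complex.norm_real, Real.norm_eq_abs,
          abs_of_nonneg (by linarith)]
        have := norm_pos_iff.mpr hQ
        nlinarith) (by
        intro x
        have h2 : aeval (model (n + 1) α) (C (t : ℂ) * Q) x
          = (t : ℂ) • aeval (model (n + 1) α) Q x := by simp
        rw [h2, norm_smul, Complex.norm_real, Real.norm_eq_abs, abs_of_nonneg (by linarith)]
        have := norm_nonneg (aeval (model (n + 1) α) Q x)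
        have := hm x
        nlinarith) H a ha hann x
      have h2 : aeval a (C (t : ℂ) * Q) x = (t : ℂ) • aeval a Q x := by simp
      rwa [h2, norm_smul, Complex.norm_real, Real.norm_eq_abs, abs_of_nonneg (by linarith)] at h1
    have hc : Continuous fun t : ℝ => t * ‖aeval a Q x‖ := by fun_prop
    have t1 := (hc.tendsto 1).mono_left (nhdsWithin_le_nhds (s := Set.Ioi 1))
    have := ge_of_tendsto t1 (by
      filter_upwards [self_mem_nhdsWithin] with t ht
      exact key t ht)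
    simpa using this

/-- Norm form of the domination by the model. -/
lemma model_dom_norm {n : ℕ} {α : ℂ} (hα : ‖α‖ < 1) (ψ : ℂ[X])
    (H : Type) [NormedAddCommGroup H] [InnerProductSpace ℂ H] [FiniteDimensional ℂ H]
    (a : H →L[ℂ] H) (ha : ‖a‖ ≤ 1) (hann : aeval a (nodePoly (List.replicate n α)) = 0) :
    ‖aeval a ψ‖ ≤ ‖aeval (model n α) ψ‖ := by
  apply le_of_forall_gt_imp_ge_of_dense
  intro c hc
  have hc0 : 0 < c := lt_of_le_of_lt (norm_nonneg _) hc
  apply ContinuousLinearMap.opNorm_le_bound _ hc0.le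
  intro x
  have hC : ∀ (K : Type) [NormedAddCommGroup K] [InnerProductSpace ℂ K] (b : K →L[ℂ] K) (y : K),
      ‖aeval b (C (c : ℂ)) y‖ = c * ‖y‖ := by
    intro K _ _ b y
    have : aeval b (C (c : ℂ)) y = (c : ℂ) • y := by simp
    rw [this, norm_smul, Complex.norm_real, Real.norm_eq_abs, abs_of_pos hc0]
  have h := model_dom n hα (P := ψ) (Q := C (c : ℂ)) (by simpa using hc0.ne') (by
    intro y
    rw [hC]
    calc ‖aeval (model n α) ψ y‖ ≤ ‖aeval (model n α) ψ‖ * ‖y‖ := ContinuousLinearMap.le_opNorm _ _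
      _ ≤ c * ‖y‖ := by gcongr) H a ha hann x
  rwa [hC] at h

end Pool.Agent.Helper40.Ptak
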