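import Pool.Agent.Helper40.Ptak.Key

open Polynomial ComplexConjugate

namespace Pool.Agent.Helper40.Ptak

section CS

variable {K : Type*} [NormedAddCommGroup K] [InnerProductSpace ℂ K]

lemma norm_apply_le (T : K →L[ℂ] K) (hT : ‖T‖ ≤ 1) (w : K) : ‖T w‖ ≤ ‖w‖ := by
  calc ‖T w‖ ≤ ‖T‖ * ‖w‖ := T.le_opNorm w
    _ ≤ 1 * ‖w‖ := by gcongr
    _ = ‖w‖ := one_mul _

/-- The positive semidefinite form `⟪x, y⟫ - ⟪T x, T y⟫` of a contraction. -/
noncomputable def defectCore (T : K →L[ℂ] K) (hT : ‖T‖ ≤ 1) : PreInnerProductSpace.Core ℂ K where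
  inner x y := inner ℂ x y - inner ℂ (T x) (T y)
  conj_inner_symm x y := by
    rw [map_sub, inner_conj_symm, inner_conj_symm]
  re_inner_nonneg x := by
    have h := norm_apply_le T hT x
    rw [map_sub, inner_self_eq_norm_sq, inner_self_eq_norm_sq]
    have h0 : 0 ≤ ‖T x‖ := norm_nonneg _
    nlinarith
  add_left x y z := by
    simp only [map_add, inner_add_left]
    ring
  smul_left x y r := by
    simp only [map_smul, inner_smul_left]
    ring

lemma cs (T : K →L[ℂ] K) (hT : ‖T‖ ≤ 1) (w w' : K) :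
    ‖(inner ℂ w w' - inner ℂ (T w) (T w') : ℂ)‖ ^ 2 ≤
      (‖w‖ ^ 2 - ‖T w‖ ^ 2) * (‖w'‖ ^ 2 - ‖T w'‖ ^ 2) := by
  have h := @InnerProductSpace.Core.inner_mul_inner_self_le ℂ K _ _ _ (defectCore T hT) w w'
  have e1 : ∀ x y, @inner ℂ K (defectCore T hT).toInner x y
      = inner ℂ x y - inner ℂ (T x) (T y) := fun _ _ => rfl
  have e2 : ‖(inner ℂ w' w - inner ℂ (T w') (T w) : ℂ)‖ = ‖(inner ℂ w w' - inner ℂ (T w) (T w') : ℂ)‖ := by
    rw [← inner_conj_symm w' w, ← inner_conj_symm (T w') (T w), ← map_sub, RCLike.norm_conj]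
  have e3 : ∀ x : K, RCLike.re (inner ℂ x x - inner ℂ (T x) (T x) : ℂ) = ‖x‖ ^ 2 - ‖T x‖ ^ 2 := by
    intro x
    rw [map_sub, inner_self_eq_norm_sq, inner_self_eq_norm_sq]
  rw [pow_two]
  calc _ = ‖(inner ℂ w w' - inner ℂ (T w) (T w') : ℂ)‖ * ‖(inner ℂ w' w - inner ℂ (T w') (T w) : ℂ)‖ := by
        rw [e2]
    _ ≤ _ := by
        rw [← e3, ← e3]
        exact h

lemma exists_functional (T : K →L[ℂ] K) (hT : ‖T‖ ≤ 1) (α : ℂ) (hα : ‖α‖ ≤ 1) (w : K) :
    ∃ r : K →L[ℂ] ℂ, (∀ w', ‖r w'‖ ^ 2 ≤ (1 - ‖α‖ ^ 2) * (‖w'‖ ^ 2 - ‖T w'‖ ^ 2)) ∧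
      ‖r w‖ ^ 2 = (1 - ‖α‖ ^ 2) * (‖w‖ ^ 2 - ‖T w‖ ^ 2) := by
  have hα2 : 0 ≤ 1 - ‖α‖ ^ 2 := by
    have := norm_nonneg α
    nlinarith
  have hpos : ∀ w' : K, 0 ≤ ‖w'‖ ^ 2 - ‖T w'‖ ^ 2 := by
    intro w'
    have h := norm_apply_le T hT w'
    have h0 : 0 ≤ ‖T w'‖ := norm_nonneg _
    nlinarith
  by_cases hw : ‖w‖ ^ 2 - ‖T w‖ ^ 2 = 0
  · refine ⟨0, ?_, ?_⟩
    · intro w'
      simp only [ContinuousLinearMap.zero_apply, norm_zero]
      have := mul_nonneg hα2 (hpos w')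
      simpa using this
    · simp [hw]
  · have hw' : 0 < ‖w‖ ^ 2 - ‖T w‖ ^ 2 := lt_of_le_of_ne (hpos w) (Ne.symm hw)
    set B := ‖w‖ ^ 2 - ‖T w‖ ^ 2 with hB
    set c : ℝ := Real.sqrt ((1 - ‖α‖ ^ 2) / B) with hc
    have hc2 : c ^ 2 = (1 - ‖α‖ ^ 2) / B := by
      rw [hc, Real.sq_sqrt]
      positivity
    refine ⟨(c : ℂ) • (innerSL ℂ w - (innerSL ℂ (T w)).comp T), ?_, ?_⟩
    · intro w'
      have h := cs T hT w w'
      simp only [ContinuousLinearMap.smul_apply, ContinuousLinearMap.sub_apply,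
        ContinuousLinearMap.comp_apply, innerSL_apply_apply, norm_smul, mul_pow]
      rw [Complex.norm_real, Real.norm_eq_abs, sq_abs, hc2]
      calc (1 - ‖α‖ ^ 2) / B * ‖(inner ℂ w w' - inner ℂ (T w) (T w') : ℂ)‖ ^ 2
          ≤ (1 - ‖α‖ ^ 2) / B * (B * (‖w'‖ ^ 2 - ‖T w'‖ ^ 2)) := by
            apply mul_le_mul_of_nonneg_left h
            positivity
        _ = _ := by field_simp
    · simp only [ContinuousLinearMap.smul_apply, ContinuousLinearMap.sub_apply,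
        ContinuousLinearMap.comp_apply, innerSL_apply_apply, norm_smul, mul_pow]
      rw [Complex.norm_real, Real.norm_eq_abs, sq_abs, hc2]
      have : (inner ℂ w w - inner ℂ (T w) (T w) : ℂ) = ((B : ℝ) : ℂ) := by
        rw [inner_self_eq_norm_sq_to_K, inner_self_eq_norm_sq_to_K, hB]
        push_cast
        rfl
      rw [this, Complex.norm_real, Real.norm_eq_abs, sq_abs]
      field_simp

end CS

section Ext

variable {K : Type*} [NormedAddCommGroup K] [InnerProductSpace ℂ K] [FiniteDimensional ℂ K]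

/-- One-dimensional extension of an operator. -/
noncomputable def ext (α : ℂ) (r : K →L[ℂ] ℂ) (T : K →L[ℂ] K) :
    WithLp 2 (ℂ × K) →L[ℂ] WithLp 2 (ℂ × K) :=
  LinearMap.toContinuousLinearMap
    { toFun := fun x => WithLp.toLp 2 (α * x.fst + r x.snd, T x.snd)
      map_add' := by
        intro x y
        apply (WithLp.equiv 2 (ℂ × K)).injective
        ext <;> simp
        ring
      map_smul' := by
        intro c x
        apply (WithLp.equiv 2 (ℂ × K)).injective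
        ext <;> simp
        ring }

/-- The inclusion of the first coordinate. -/
noncomputable def inl' (K : Type*) [NormedAddCommGroup K] [InnerProductSpace ℂ K] :
    ℂ →ₗᵢ[ℂ] WithLp 2 (ℂ × K) where
  toFun s := WithLp.toLp 2 (s, 0)
  map_add' x y := by
    apply (WithLp.equiv 2 (ℂ × K)).injective
    ext <;> simp
  map_smul' c x := by
    apply (WithLp.equiv 2 (ℂ × K)).injective
    ext <;> simp
  norm_map' x := by
    have := WithLp.prod_norm_sq_eq_of_L2 (WithLp.toLp 2 (x, (0 : K)))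
    simp at this
    simpa using this

/-- The inclusion of the second coordinate. -/
noncomputable def inr' (K : Type*) [NormedAddCommGroup K] [InnerProductSpace ℂ K] :
    K →ₗᵢ[ℂ] WithLp 2 (ℂ × K) where
  toFun y := WithLp.toLp 2 (0, y)
  map_add' x y := by
    apply (WithLp.equiv 2 (ℂ × K)).injective
    ext <;> simp
  map_smul' c x := by
    apply (WithLp.equiv 2 (ℂ × K)).injective
    ext <;> simp
  norm_map' x := by
    have := WithLp.prod_norm_sq_eq_of_L2 (WithLp.toLp 2 ((0 : ℂ), x))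
    simp at this
    simpa using this

end Ext

end Pool.Agent.Helper40.Ptak
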