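import Pool.Agent.Helper40.Ptak.Holo

open Polynomial ComplexConjugate Filter Topology

set_option maxHeartbeats 400000

namespace Pool.Agent.Helper40.Ptak

lemma coe_aeval {E : Type*} [NormedAddCommGroup E] [InnerProductSpace ℂ E] (a : E →L[ℂ] E)
    (q : ℂ[X]) : ((aeval a q : E →L[ℂ] E) : E →ₗ[ℂ] E) = aeval (a : E →ₗ[ℂ] E) q := by
  induction q using Polynomial.induction_on' with
  | add p q hp hq => simp [hp, hq]
  | monomial n c =>
    induction n generalizing c with
    | zero =>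
      ext x
      simp
    | succ n ih =>
      have : (monomial (n + 1) c : ℂ[X]) = X * monomial n c := by rw [X_mul_monomial]
      rw [this, map_mul, map_mul, ← ih, aeval_X, aeval_X]
      rfl

lemma exists_nodes {n : ℕ} {p : ℝ} {φ : ℂ[X]} (hφ : ∀ z : ℂ, φ.IsRoot z → ‖z‖ ≤ p)
    (a : EuclideanSpace ℂ (Fin n) →L[ℂ] EuclideanSpace ℂ (Fin n)) (hann : aeval a φ = 0) :
    ∃ ℓ : List ℂ, ℓ.length = n ∧ (∀ z ∈ ℓ, ‖z‖ ≤ p) ∧ aeval a (nodePoly ℓ) = 0 := by
  set A : EuclideanSpace ℂ (Fin n) →ₗ[ℂ] EuclideanSpace ℂ (Fin n) := (a : EuclideanSpace ℂ (Fin n) →ₗ[ℂ] EuclideanSpace ℂ (Fin n)) with hA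
  have hsp := IsAlgClosed.splits A.charpoly
  refine ⟨A.charpoly.roots.toList, ?_, ?_, ?_⟩
  · rw [Multiset.length_toList, ← hsp.natDegree_eq_card_roots, LinearMap.charpoly_natDegree]
    simp
  · intro z hz
    rw [Multiset.mem_toList] at hz
    have hz' : A.charpoly.IsRoot z := (Polynomial.mem_roots'.mp hz).2
    have hev : Module.End.HasEigenvalue A z := Module.End.hasEigenvalue_iff_isRoot_charpoly A z |>.mpr hz'
    obtain ⟨v, hv⟩ := hev.exists_hasEigenvector
    apply hφ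
    have h1 := Module.End.aeval_apply_of_hasEigenvector (p := φ) hv
    have h2 : aeval A φ v = 0 := by
      rw [← coe_aeval, hann]
      rfl
    rw [h2] at h1
    exact (smul_eq_zero.mp h1.symm).resolve_right hv.2
  · have h1 : nodePoly A.charpoly.roots.toList = A.charpoly := by
      rw [nodePoly, ← Multiset.prod_coe, ← Multiset.map_coe, Multiset.coe_toList]
      exact (hsp.eq_prod_roots_of_monic A.charpoly_monic).symm
    rw [h1]
    have h2 : ((aeval a A.charpoly : EuclideanSpace ℂ (Fin n) →L[ℂ] EuclideanSpace ℂ (Fin n)) :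
        EuclideanSpace ℂ (Fin n) →ₗ[ℂ] EuclideanSpace ℂ (Fin n)) = 0 := by
      rw [coe_aeval]
      exact A.aeval_self_charpoly
    ext1 x
    have := congrArg (fun f => f x) h2
    simpa using this

lemma nodePoly_replicate (n : ℕ) (α : ℂ) : nodePoly (List.replicate n α) = (X - C α) ^ n := by
  simp [nodePoly]

/-- For `φ` with all roots in the disc, the maximum defining `M_ψ(φ)` is attained. -/
lemma exists_max {m : ℕ} {p : ℝ} {ψ : ℂ → ℂ} (hp0 : 0 ≤ p) (hp : p < 1)
    (hψ : AnalyticOnNhd ℂ ψ (Metric.closedBall 0 p)) {φ : ℂ[X]} (hdeg : 0 < φ.natDegree)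
    (hφ : ∀ z : ℂ, φ.IsRoot z → ‖z‖ ≤ p) :
    ∃ a : EuclideanSpace ℂ (Fin (m + 1)) →L[ℂ] EuclideanSpace ℂ (Fin (m + 1)),
      (‖a‖ ≤ 1 ∧ aeval a φ = 0) ∧
      ∀ b : EuclideanSpace ℂ (Fin (m + 1)) →L[ℂ] EuclideanSpace ℂ (Fin (m + 1)),
      (‖b‖ ≤ 1 ∧ aeval b φ = 0) → ‖holo ψ b‖ ≤ ‖holo ψ a‖ := by
  haveI : ProperSpace (EuclideanSpace ℂ (Fin (m + 1)) →L[ℂ] EuclideanSpace ℂ (Fin (m + 1))) :=
    FiniteDimensional.proper ℂ _
  obtain ⟨ε, hε, happ⟩ := approx (m := m) hp0 hp hψ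
  set S : Set (EuclideanSpace ℂ (Fin (m + 1)) →L[ℂ] EuclideanSpace ℂ (Fin (m + 1))) :=
    {a | ‖a‖ ≤ 1 ∧ aeval a φ = 0} with hS
  have hcomp : IsCompact S := by
    have : S = Metric.closedBall 0 1 ∩ {a | aeval a φ = 0} := by
      ext a
      simp [hS]
    rw [this]
    apply (isCompact_closedBall _ _).inter_right
    exact isClosed_eq (Polynomial.continuous_aeval φ) continuous_const
  have hcont : ContinuousOn (fun a => ‖holo ψ a‖) S := by
    have hu : TendstoUniformlyOn (fun N a => ‖aeval a (tp ψ N)‖)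
        (fun a => ‖holo ψ a‖) atTop S := by
      rw [Metric.tendstoUniformlyOn_iff]
      intro δ hδ
      filter_upwards [hε.eventually (gt_mem_nhds hδ)] with N hN a ha
      obtain ⟨ℓ, hℓ, hnodes, hann⟩ := exists_nodes hφ a ha.2
      rw [Real.dist_eq]
      calc |‖holo ψ a‖ - ‖aeval a (tp ψ N)‖|
          ≤ ‖holo ψ a - aeval a (tp ψ N)‖ := abs_norm_sub_norm_le _ _
        _ ≤ ε N := happ N a ha.1 ℓ hℓ hnodes hann
        _ < δ := hN
    refine hu.continuousOn (Eventually.frequently (Eventually.of_forall fun N => ?_))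
    apply Continuous.continuousOn
    apply Continuous.norm
    exact Polynomial.continuous_aeval _
  have hne : S.Nonempty := by
    obtain ⟨z, hz⟩ := IsAlgClosed.exists_root φ (by
      intro h
      rw [natDegree_eq_of_degree_eq_some h] at hdeg
      exact lt_irrefl _ hdeg)
    refine ⟨z • ContinuousLinearMap.id ℂ _, ?_, ?_⟩
    · rw [norm_smul]
      have h1 : ‖z‖ ≤ 1 := (hφ z hz).trans hp.le
      calc ‖z‖ * ‖ContinuousLinearMap.id ℂ (EuclideanSpace ℂ (Fin (m + 1)))‖ ≤ 1 * 1 := by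
            gcongr
            exact ContinuousLinearMap.norm_id_le
        _ = 1 := one_mul _
    · ext1 x
      rw [aeval_scalar, hz]
      simp
  obtain ⟨a, ha, hmax⟩ := hcomp.exists_isMaxOn hne hcont
  exact ⟨a, ha, fun b hb => hmax hb⟩

end Pool.Agent.Helper40.Ptak
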