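import Pool.Agent.Helper40.Ptak.Poly

open Polynomial ComplexConjugate Filter Topology

set_option maxHeartbeats 400000

namespace Pool.Agent.Helper40.Ptak

/-- Taylor coefficients at `0`. -/
noncomputable def tc (ψ : ℂ → ℂ) (k : ℕ) : ℂ := iteratedDeriv k ψ 0 / (k.factorial : ℂ)

/-- `ψ(a)` by the Taylor series at `0`. -/
noncomputable def holo {n : ℕ} (ψ : ℂ → ℂ)
    (a : EuclideanSpace ℂ (Fin n) →L[ℂ] EuclideanSpace ℂ (Fin n)) :
    EuclideanSpace ℂ (Fin n) →L[ℂ] EuclideanSpace ℂ (Fin n) :=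
  ∑' k : ℕ, (iteratedDeriv k ψ 0 / (k.factorial : ℂ)) • a ^ k

/-- Taylor polynomials. -/
noncomputable def tp (ψ : ℂ → ℂ) (N : ℕ) : ℂ[X] := ∑ k ∈ Finset.range N, C (tc ψ k) * X ^ k

lemma summable_tc {ψ : ℂ → ℂ} {p : ℝ} (hp : 0 ≤ p)
    (hψ : AnalyticOnNhd ℂ ψ (Metric.closedBall 0 p)) :
    ∃ r, p < r ∧ Summable fun k => ‖tc ψ k‖ * r ^ k := by
  obtain ⟨δ, hδ, hsub⟩ := (isCompact_closedBall (0 : ℂ) p).exists_thickening_subset_open
    (isOpen_analyticAt ℂ ψ) (fun z hz => hψ z hz)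
  rw [thickening_closedBall hδ hp] at hsub
  have hd : DifferentiableOn ℂ ψ (Metric.ball 0 (δ + p)) := fun z hz =>
    (hsub hz).differentiableAt.differentiableWithinAt
  refine ⟨p + δ / 2, by linarith, ?_⟩
  have hmem : (((p + δ / 2 : ℝ)) : ℂ) ∈ Metric.ball (0 : ℂ) (δ + p) := by
    rw [mem_ball_zero_iff, Complex.norm_real, Real.norm_eq_abs, abs_of_nonneg (by positivity)]
    linarith
  have h := (Complex.hasSum_taylorSeries_on_ball hd hmem).summable.norm
  refine h.congr ?_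
  intro k
  rw [norm_smul, norm_smul, norm_pow, sub_zero, Complex.norm_real, Real.norm_eq_abs,
    abs_of_nonneg (by positivity), tc, norm_div, norm_inv]
  ring

/-- Uniform geometric bound. -/
lemma pow_bound {p r : ℝ} (hp0 : 0 ≤ p) (hp1 : p ≤ 1) (hr : p < r) (n : ℕ) :
    ∃ D : ℝ, 0 ≤ D ∧ ∀ {A : Type} [NormedRing A] [NormedAlgebra ℂ A] [NormOneClass A] (a : A),
      ‖a‖ ≤ 1 → ∀ ℓ : List ℂ, ℓ.length = n → (∀ z ∈ ℓ, ‖z‖ ≤ p) → ∀ b : A,
      aeval a (nodePoly ℓ) * b = 0 → ∀ k : ℕ, ‖a ^ k * b‖ ≤ D * ‖b‖ * r ^ k := by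
  induction n with
  | zero =>
    refine ⟨0, le_rfl, ?_⟩
    intro A _ _ _ a ha ℓ hℓ hnodes b hb k
    rw [List.length_eq_zero_iff.mp hℓ] at hb
    have : b = 0 := by simpa using hb
    simp [this]
  | succ n ih =>
    obtain ⟨D, hD0, hD⟩ := ih
    have hrp : 0 < r - p := by linarith
    have hr0 : 0 < r := by linarith
    refine ⟨1 + 2 * D / (r - p), by positivity, ?_⟩
    intro A _ _ _ a ha ℓ hℓ hnodes b hb k
    obtain ⟨z, ℓ', rfl⟩ := List.exists_cons_of_length_eq_add_one hℓ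
    have hz : ‖z‖ ≤ p := hnodes z (by simp)
    set c := (a - algebraMap ℂ A z) * b with hc
    have hc0 : aeval a (nodePoly ℓ') * c = 0 := by
      rw [hc, ← mul_assoc, ← hb, nodePoly_cons, mul_comm (X - C z)]
      simp
    have hcn : ‖c‖ ≤ 2 * ‖b‖ := by
      calc ‖c‖ ≤ ‖a - algebraMap ℂ A z‖ * ‖b‖ := norm_mul_le _ _
        _ ≤ (‖a‖ + ‖algebraMap ℂ A z‖) * ‖b‖ := by gcongr; exact norm_sub_le _ _
        _ ≤ (1 + 1) * ‖b‖ := by
          gcongr
          rw [norm_algebraMap']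
          linarith
        _ = 2 * ‖b‖ := by ring
    have hstep := hD a ha ℓ' (by simpa using hℓ) (fun w hw => hnodes w (by simp [hw])) c hc0
    have hE : 2 * D ≤ (r - p) * (1 + 2 * D / (r - p)) := by
      rw [mul_add, mul_div_cancel₀ _ hrp.ne']
      linarith
    set E := 1 + 2 * D / (r - p) with hEdef
    have hE1 : 1 ≤ E := by
      have : 0 ≤ 2 * D / (r - p) := by positivity
      linarith
    induction k with
    | zero =>
      simp only [pow_zero, one_mul, mul_one]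
      have := norm_nonneg b
      nlinarith
    | succ k ihk =>
      have e1 : a ^ (k + 1) * b = algebraMap ℂ A z * (a ^ k * b) + a ^ k * c := by
        rw [hc, pow_succ, sub_mul, mul_sub]
        rw [← mul_assoc (a ^ k) (algebraMap ℂ A z) b, ← Algebra.commutes z (a ^ k)]
        simp only [mul_assoc]
        abel
      rw [e1]
      have hb0 := norm_nonneg b
      have hrk : 0 < r ^ k := by positivity
      calc ‖algebraMap ℂ A z * (a ^ k * b) + a ^ k * c‖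
          ≤ ‖algebraMap ℂ A z * (a ^ k * b)‖ + ‖a ^ k * c‖ := norm_add_le _ _
        _ ≤ p * (E * ‖b‖ * r ^ k) + D * (2 * ‖b‖) * r ^ k := by
            gcongr
            · calc ‖algebraMap ℂ A z * (a ^ k * b)‖ ≤ ‖algebraMap ℂ A z‖ * ‖a ^ k * b‖ :=
                    norm_mul_le _ _
                _ ≤ p * (E * ‖b‖ * r ^ k) := by
                    rw [norm_algebraMap']
                    gcongr
            · exact (hstep k).trans (by gcongr)
        _ = ‖b‖ * r ^ k * (p * E + 2 * D) := by ring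
        _ ≤ ‖b‖ * r ^ k * (r * E) := by
            gcongr
            linarith
        _ = E * ‖b‖ * r ^ (k + 1) := by rw [pow_succ]; ring


lemma aeval_tp {A : Type*} [Ring A] [Algebra ℂ A] (ψ : ℂ → ℂ) (N : ℕ) (a : A) :
    aeval a (tp ψ N) = ∑ k ∈ Finset.range N, tc ψ k • a ^ k := by
  rw [tp, map_sum]
  apply Finset.sum_congr rfl
  intro k _
  simp [Algebra.smul_def]

/-- Uniform approximation of `ψ(a)` by Taylor polynomials. -/
lemma approx {m : ℕ} {p : ℝ} {ψ : ℂ → ℂ} (hp0 : 0 ≤ p) (hp : p < 1)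
    (hψ : AnalyticOnNhd ℂ ψ (Metric.closedBall 0 p)) :
    ∃ ε : ℕ → ℝ, Tendsto ε atTop (𝓝 0) ∧ ∀ (N : ℕ)
      (a : EuclideanSpace ℂ (Fin (m + 1)) →L[ℂ] EuclideanSpace ℂ (Fin (m + 1))), ‖a‖ ≤ 1 →
      ∀ ℓ : List ℂ, ℓ.length = m + 1 → (∀ z ∈ ℓ, ‖z‖ ≤ p) → aeval a (nodePoly ℓ) = 0 →
      ‖holo ψ a - aeval a (tp ψ N)‖ ≤ ε N := by
  obtain ⟨r, hpr, hs⟩ := summable_tc hp0 hψ
  obtain ⟨D, hD0, hD⟩ := pow_bound hp0 hp.le hpr (m + 1)
  refine ⟨fun N => ∑' k, D * (‖tc ψ (k + N)‖ * r ^ (k + N)), ?_, ?_⟩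
  · exact tendsto_sum_nat_add (fun k => D * (‖tc ψ k‖ * r ^ k))
  · intro N a ha ℓ hℓ hnodes hann
    have hb : ∀ k, ‖a ^ k‖ ≤ D * r ^ k := by
      intro k
      have := hD a ha ℓ hℓ hnodes 1 (by rw [hann, zero_mul]) k
      simpa using this
    have hterm : ∀ k, ‖tc ψ k • a ^ k‖ ≤ D * (‖tc ψ k‖ * r ^ k) := by
      intro k
      rw [norm_smul]
      calc ‖tc ψ k‖ * ‖a ^ k‖ ≤ ‖tc ψ k‖ * (D * r ^ k) := by
            gcongr
            exact hb k
        _ = _ := by ring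
    have hsD : Summable fun k => D * (‖tc ψ k‖ * r ^ k) := hs.mul_left D
    have hsn : Summable fun k => ‖tc ψ k • a ^ k‖ :=
      Summable.of_nonneg_of_le (fun k => norm_nonneg _) hterm hsD
    have hsa : Summable fun k => tc ψ k • a ^ k := hsn.of_norm
    have hsplit := hsa.sum_add_tsum_nat_add N
    have e1 : holo ψ a - aeval a (tp ψ N) = ∑' k, tc ψ (k + N) • a ^ (k + N) := by
      rw [aeval_tp]
      show (∑' k, tc ψ k • a ^ k) - _ = _
      rw [← hsplit]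
      abel
    rw [e1]
    have hsn' : Summable fun k => ‖tc ψ (k + N) • a ^ (k + N)‖ := (summable_nat_add_iff N).mpr hsn
    have hsD' : Summable fun k => D * (‖tc ψ (k + N)‖ * r ^ (k + N)) :=
      (summable_nat_add_iff N).mpr hsD
    calc ‖∑' k, tc ψ (k + N) • a ^ (k + N)‖ ≤ ∑' k, ‖tc ψ (k + N) • a ^ (k + N)‖ :=
          norm_tsum_le_tsum_norm hsn'
      _ ≤ ∑' k, D * (‖tc ψ (k + N)‖ * r ^ (k + N)) :=
          hsn'.tsum_le_tsum (fun k => hterm (k + N)) hsD'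

lemma model_continuous (n : ℕ) : Continuous fun β : ℂ => model n β := by
  unfold model
  have h1 : Continuous fun A : Matrix (Fin n) (Fin n) ℂ =>
      Matrix.toEuclideanCLM (n := Fin n) (𝕜 := ℂ) A :=
    LinearMap.continuous_of_finiteDimensional
      ((Matrix.toEuclideanCLM (n := Fin n) (𝕜 := ℂ)).toAlgEquiv.toLinearEquiv.toLinearMap)
  apply h1.comp
  apply continuous_matrix
  intro i j
  simp only [modelMatrix, Matrix.of_apply]
  split_ifs
  · exact continuous_id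
  · have : Continuous fun β : ℂ => conj β := Complex.continuous_conj
    fun_prop
  · exact continuous_const

/-- A maximum point on the circle exists. -/
lemma exists_peak {m : ℕ} {p : ℝ} {ψ : ℂ → ℂ} (hp0 : 0 ≤ p) (hp : p < 1)
    (hψ : AnalyticOnNhd ℂ ψ (Metric.closedBall 0 p)) :
    ∃ α : ℂ, ‖α‖ = p ∧ ∀ β : ℂ, ‖β‖ = p →
      ‖holo ψ (model (m + 1) β)‖ ≤ ‖holo ψ (model (m + 1) α)‖ := by
  obtain ⟨ε, hε, happ⟩ := approx (m := m) hp0 hp hψ
  have hcont : ContinuousOn (fun β : ℂ => ‖holo ψ (model (m + 1) β)‖) (Metric.sphere 0 p) := by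
    have hu : TendstoUniformlyOn (fun N (β : ℂ) => ‖aeval (model (m + 1) β) (tp ψ N)‖)
        (fun β => ‖holo ψ (model (m + 1) β)‖) atTop (Metric.sphere 0 p) := by
      rw [Metric.tendstoUniformlyOn_iff]
      intro δ hδ
      filter_upwards [hε.eventually (gt_mem_nhds hδ)] with N hN β hβ
      have hβ' : ‖β‖ = p := by simpa using hβ
      rw [Real.dist_eq]
      calc |‖holo ψ (model (m + 1) β)‖ - ‖aeval (model (m + 1) β) (tp ψ N)‖|
          ≤ ‖holo ψ (model (m + 1) β) - aeval (model (m + 1) β) (tp ψ N)‖ :=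
            abs_norm_sub_norm_le _ _
        _ ≤ ε N := happ N _ (model_norm_le _ (by rw [hβ']; exact hp.le))
            (List.replicate (m + 1) β) (by simp)
            (by intro z hz; rw [List.eq_of_mem_replicate hz, hβ']) (model_ann _ _)
        _ < δ := hN
    refine hu.continuousOn (Eventually.frequently (Eventually.of_forall fun N => ?_))
    apply Continuous.continuousOn
    apply Continuous.norm
    exact (Polynomial.continuous_aeval _).comp (model_continuous _)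
  obtain ⟨α, hα, hmax⟩ := (isCompact_sphere (0 : ℂ) p).exists_isMaxOn
    (NormedSpace.sphere_nonempty.mpr hp0) hcont
  exact ⟨α, by simpa using hα, fun β hβ => hmax (by simpa using hβ)⟩

/-- The main inequality. -/
theorem main_ineq {m : ℕ} {p : ℝ} {ψ : ℂ → ℂ} (hp0 : 0 ≤ p) (hp : p < 1)
    (hψ : AnalyticOnNhd ℂ ψ (Metric.closedBall 0 p)) {α : ℂ}
    (hpeak : ∀ β : ℂ, ‖β‖ = p →
      ‖holo ψ (model (m + 1) β)‖ ≤ ‖holo ψ (model (m + 1) α)‖)
    (a : EuclideanSpace ℂ (Fin (m + 1)) →L[ℂ] EuclideanSpace ℂ (Fin (m + 1))) (ha : ‖a‖ ≤ 1)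
    (ℓ : List ℂ) (hℓ : ℓ.length = m + 1) (hnodes : ∀ z ∈ ℓ, ‖z‖ ≤ p)
    (hann : aeval a (nodePoly ℓ) = 0) :
    ‖holo ψ a‖ ≤ ‖holo ψ (model (m + 1) α)‖ := by
  obtain ⟨ε, hε, happ⟩ := approx (m := m) hp0 hp hψ
  have key : ∀ N, ‖holo ψ a‖ ≤ ‖holo ψ (model (m + 1) α)‖ + 2 * ε N := by
    intro N
    obtain ⟨β, hβ, hmain⟩ := poly_main (n := m + 1) (by omega) hp0 hp (tp ψ N)
    have h1 := hmain a ha ℓ hℓ hnodes hann
    have h2 := happ N a ha ℓ hℓ hnodes hann
    have h3 := happ N (model (m + 1) β) (model_norm_le _ (by rw [hβ]; exact hp.le))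
            (List.replicate (m + 1) β) (by simp)
            (by intro z hz; rw [List.eq_of_mem_replicate hz, hβ]) (model_ann _ _)
    have h4 := hpeak β hβ
    have h5 : ‖holo ψ a‖ ≤ ‖aeval a (tp ψ N)‖ + ‖holo ψ a - aeval a (tp ψ N)‖ := by
      calc ‖holo ψ a‖ = ‖aeval a (tp ψ N) + (holo ψ a - aeval a (tp ψ N))‖ := by congr 1; abel
        _ ≤ _ := norm_add_le _ _
    have h6 : ‖aeval (model (m + 1) β) (tp ψ N)‖ ≤ ‖holo ψ (model (m + 1) β)‖
        + ‖holo ψ (model (m + 1) β) - aeval (model (m + 1) β) (tp ψ N)‖ := by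
      calc ‖aeval (model (m + 1) β) (tp ψ N)‖
          = ‖holo ψ (model (m + 1) β) - (holo ψ (model (m + 1) β)
            - aeval (model (m + 1) β) (tp ψ N))‖ := by congr 1; abel
        _ ≤ _ := norm_sub_le _ _
    linarith
  have ht : Tendsto (fun N => ‖holo ψ (model (m + 1) α)‖ + 2 * ε N) atTop
      (𝓝 (‖holo ψ (model (m + 1) α)‖ + 2 * 0)) := (hε.const_mul 2).const_add _
  have := ge_of_tendsto' ht key
  simpa using this

/-- The model dominates (holomorphic version). -/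
theorem model_dom_holo {m : ℕ} {p : ℝ} {ψ : ℂ → ℂ} (hp0 : 0 ≤ p) (hp : p < 1)
    (hψ : AnalyticOnNhd ℂ ψ (Metric.closedBall 0 p)) {α : ℂ} (hα : ‖α‖ ≤ p)
    (a : EuclideanSpace ℂ (Fin (m + 1)) →L[ℂ] EuclideanSpace ℂ (Fin (m + 1))) (ha : ‖a‖ ≤ 1)
    (hann : aeval a (nodePoly (List.replicate (m + 1) α)) = 0) :
    ‖holo ψ a‖ ≤ ‖holo ψ (model (m + 1) α)‖ := by
  obtain ⟨ε, hε, happ⟩ := approx (m := m) hp0 hp hψ
  have hα1 : ‖α‖ < 1 := lt_of_le_of_lt hα hp
  have hnodes : ∀ z ∈ List.replicate (m + 1) α, ‖z‖ ≤ p := by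
    intro z hz; rw [List.eq_of_mem_replicate hz]; exact hα
  have key : ∀ N, ‖holo ψ a‖ ≤ ‖holo ψ (model (m + 1) α)‖ + 2 * ε N := by
    intro N
    have h1 := model_dom_norm hα1 (tp ψ N) _ a ha hann
    have h2 := happ N a ha _ (by simp) hnodes hann
    have h3 := happ N (model (m + 1) α) (model_norm_le _ hα1.le) _ (by simp) hnodes (model_ann _ _)
    have h5 : ‖holo ψ a‖ ≤ ‖aeval a (tp ψ N)‖ + ‖holo ψ a - aeval a (tp ψ N)‖ := by
      calc ‖holo ψ a‖ = ‖aeval a (tp ψ N) + (holo ψ a - aeval a (tp ψ N))‖ := by congr 1; abel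
        _ ≤ _ := norm_add_le _ _
    have h6 : ‖aeval (model (m + 1) α) (tp ψ N)‖ ≤ ‖holo ψ (model (m + 1) α)‖
        + ‖holo ψ (model (m + 1) α) - aeval (model (m + 1) α) (tp ψ N)‖ := by
      calc ‖aeval (model (m + 1) α) (tp ψ N)‖
          = ‖holo ψ (model (m + 1) α) - (holo ψ (model (m + 1) α)
            - aeval (model (m + 1) α) (tp ψ N))‖ := by congr 1; abel
        _ ≤ _ := norm_sub_le _ _
    linarith
  have ht : Tendsto (fun N => ‖holo ψ (model (m + 1) α)‖ + 2 * ε N) atTop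
      (𝓝 (‖holo ψ (model (m + 1) α)‖ + 2 * 0)) := (hε.const_mul 2).const_add _
  have := ge_of_tendsto' ht key
  simpa using this

end Pool.Agent.Helper40.Ptak
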