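import Mathlib

open Polynomial ComplexConjugate

namespace Pool.Agent.Helper40.Ptak

/-- The polynomial `G = (Q(α) P - P(α) Q) / (X - α)`. -/
noncomputable def G (P Q : ℂ[X]) (α : ℂ) : ℂ[X] :=
  C (Q.eval α) * (P /ₘ (X - C α)) - C (P.eval α) * (Q /ₘ (X - C α))

/-- Numerator of the Schur transform. -/
noncomputable def P1 (P Q : ℂ[X]) (α : ℂ) : ℂ[X] := (1 - C (conj α) * X) * G P Q α

/-- Denominator of the Schur transform. -/
noncomputable def Q1 (P Q : ℂ[X]) (α : ℂ) : ℂ[X] :=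
  C (conj (Q.eval α)) * Q - C (conj (P.eval α)) * P

lemma div_spec (q : ℂ[X]) (α : ℂ) : q = (X - C α) * (q /ₘ (X - C α)) + C (q.eval α) := by
  have h := modByMonic_add_div q (X - C α)
  rw [modByMonic_X_sub_C_eq_C_eval] at h
  rw [add_comm] at h
  exact h.symm

lemma G_spec (P Q : ℂ[X]) (α : ℂ) :
    (X - C α) * G P Q α = C (Q.eval α) * P - C (P.eval α) * Q := by
  have hP := div_spec P α
  have hQ := div_spec Q α
  unfold G
  calc (X - C α) * (C (eval α Q) * (P /ₘ (X - C α)) - C (eval α P) * (Q /ₘ (X - C α)))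
      = C (eval α Q) * ((X - C α) * (P /ₘ (X - C α)) + C (eval α P))
        - C (eval α P) * ((X - C α) * (Q /ₘ (X - C α)) + C (eval α Q)) := by ring
    _ = _ := by rw [← hP, ← hQ]

section Alg

variable {E : Type*} [NormedAddCommGroup E] [InnerProductSpace ℂ E]

lemma nsq (x : E) : ((‖x‖ : ℝ) : ℂ) ^ 2 = inner ℂ x x := (inner_self_eq_norm_sq_to_K x).symm

lemma csq (z : ℂ) : ((‖z‖ : ℝ) : ℂ) ^ 2 = conj z * z := (Complex.conj_mul' z).symm

/-- Identity (1). -/
lemma id1 (u v : ℂ) (s q p : E) :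
    (‖v‖ ^ 2 - ‖u‖ ^ 2) * (‖v • s + q‖ ^ 2 - ‖u • s + p‖ ^ 2) =
      ‖((‖v‖ ^ 2 - ‖u‖ ^ 2 : ℝ) : ℂ) • s + (conj v • q - conj u • p)‖ ^ 2 - ‖v • p - u • q‖ ^ 2 := by
  apply Complex.ofReal_injective
  push_cast
  simp only [csq]
  simp only [nsq, inner_add_left, inner_add_right, inner_sub_left, inner_sub_right,
    inner_smul_left, inner_smul_right, map_sub, map_mul, Complex.conj_conj]
  ring

/-- Identity (2a). -/
lemma id2a (u v : ℂ) (x y : E) :
    ‖conj v • x - conj u • y‖ ^ 2 = (‖v‖ ^ 2 - ‖u‖ ^ 2) * (‖x‖ ^ 2 - ‖y‖ ^ 2)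
      + ‖v • y - u • x‖ ^ 2 := by
  apply Complex.ofReal_injective
  push_cast
  simp only [csq]
  simp only [nsq, inner_add_left, inner_add_right, inner_sub_left, inner_sub_right,
    inner_smul_left, inner_smul_right, map_sub, map_mul, Complex.conj_conj]
  ring

/-- Identity (2b). -/
lemma id2b (α : ℂ) (w t : E) :
    ‖w - conj α • t‖ ^ 2 - ‖t - α • w‖ ^ 2 = (1 - ‖α‖ ^ 2) * (‖w‖ ^ 2 - ‖t‖ ^ 2) := by
  apply Complex.ofReal_injective
  push_cast
  simp only [csq]
  simp only [nsq, inner_add_left, inner_add_right, inner_sub_left, inner_sub_right,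
    inner_smul_left, inner_smul_right, map_sub, map_mul, Complex.conj_conj]
  ring

end Alg

section Block

variable {H H₀ K : Type*} [NormedAddCommGroup H] [InnerProductSpace ℂ H]
  [NormedAddCommGroup H₀] [InnerProductSpace ℂ H₀]
  [NormedAddCommGroup K] [InnerProductSpace ℂ K]

/-- Block upper triangular structure of `a` with respect to the orthogonal pieces
`i : H₀ → H`, `j : K → H`, with first diagonal block the scalar `α`. -/
structure Block (a : H →L[ℂ] H) (α : ℂ) (r : K →L[ℂ] H₀) (T : K →L[ℂ] K)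
    (i : H₀ →ₗᵢ[ℂ] H) (j : K →ₗᵢ[ℂ] H) : Prop where
  orth : ∀ s y, inner ℂ (i s) (j y) = 0
  ai : ∀ s, a (i s) = α • i s
  aj : ∀ y, a (j y) = i (r y) + j (T y)

variable {a : H →L[ℂ] H} {α : ℂ} {r : K →L[ℂ] H₀} {T : K →L[ℂ] K}
  {i : H₀ →ₗᵢ[ℂ] H} {j : K →ₗᵢ[ℂ] H}

lemma Block.norm_sq (h : Block a α r T i j) (s : H₀) (y : K) :
    ‖i s + j y‖ ^ 2 = ‖s‖ ^ 2 + ‖y‖ ^ 2 := by
  rw [pow_two, norm_add_sq_eq_norm_sq_add_norm_sq_of_inner_eq_zero _ _ (h.orth s y)]
  simp [pow_two]

lemma aeval_X_mul' (a : H →L[ℂ] H) (q : ℂ[X]) (x : H) :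
    aeval a (X * q) x = a (aeval a q x) := by
  simp

lemma Block.aeval_i (h : Block a α r T i j) (q : ℂ[X]) (s : H₀) :
    aeval a q (i s) = q.eval α • i s := by
  induction q using Polynomial.induction_on' with
  | add p q hp hq => simp [hp, hq, add_smul]
  | monomial n c =>
    induction n generalizing c with
    | zero => simp
    | succ n ih =>
      have : (monomial (n + 1) c : ℂ[X]) = X * monomial n c := by
        rw [X_mul_monomial]
      rw [this, aeval_X_mul', ih, map_smul, h.ai]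
      rw [smul_smul]
      congr 1
      simp
      ring

lemma Block.aeval_j_ex (h : Block a α r T i j) (q : ℂ[X]) (y : K) :
    ∃ s, aeval a q (j y) = i s + j (aeval T q y) := by
  induction q using Polynomial.induction_on' with
  | add p q hp hq =>
    obtain ⟨s, hs⟩ := hp
    obtain ⟨t, ht⟩ := hq
    refine ⟨s + t, ?_⟩
    simp [hs, ht]
    abel
  | monomial n c =>
    induction n generalizing c with
    | zero => exact ⟨0, by simp⟩
    | succ n ih =>
      have : (monomial (n + 1) c : ℂ[X]) = X * monomial n c := by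
        rw [X_mul_monomial]
      obtain ⟨s, hs⟩ := ih c
      refine ⟨α • s + r (aeval T (monomial n c) y), ?_⟩
      rw [this, aeval_X_mul', hs, map_add, h.ai, h.aj, aeval_X_mul']
      simp [add_assoc]

lemma Block.aeval_j (h : Block a α r T i j) (q : ℂ[X]) (y : K) :
    aeval a q (j y) = i (r (aeval T (q /ₘ (X - C α)) y)) + j (aeval T q y) := by
  obtain ⟨s, hs⟩ := h.aeval_j_ex (q /ₘ (X - C α)) y
  have hq := div_spec q α
  set g := q /ₘ (X - C α) with hg
  have e1 : aeval a q (j y) = (a (aeval a g (j y)) - α • aeval a g (j y)) + q.eval α • j y := by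
    conv_lhs => rw [hq]
    simp [sub_mul]
  have e2 : aeval T q y = (T (aeval T g y) - α • aeval T g y) + q.eval α • y := by
    conv_lhs => rw [hq]
    simp [sub_mul]
  rw [e1, hs, e2]
  simp only [map_add, map_sub, map_smul, h.ai, h.aj, smul_add]
  abel

/-- The key identity. -/
lemma Block.key (h : Block a α r T i j) (P Q : ℂ[X]) (s : H₀) (y : K) :
    (‖Q.eval α‖ ^ 2 - ‖P.eval α‖ ^ 2) *
        (‖aeval a Q (i s + j y)‖ ^ 2 - ‖aeval a P (i s + j y)‖ ^ 2) =
      ‖((‖Q.eval α‖ ^ 2 - ‖P.eval α‖ ^ 2 : ℝ) : ℂ) • s +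
          (conj (Q.eval α) • r (aeval T (Q /ₘ (X - C α)) y)
            - conj (P.eval α) • r (aeval T (P /ₘ (X - C α)) y))‖ ^ 2
      + (‖aeval T (Q1 P Q α) y‖ ^ 2 - ‖aeval T (P1 P Q α) y‖ ^ 2)
      + ((1 - ‖α‖ ^ 2) * (‖aeval T (G P Q α) y‖ ^ 2 - ‖T (aeval T (G P Q α) y)‖ ^ 2)
          - ‖r (aeval T (G P Q α) y)‖ ^ 2) := by
  set u := P.eval α with hu
  set v := Q.eval α with hv
  set q := r (aeval T (Q /ₘ (X - C α)) y) with hq
  set p := r (aeval T (P /ₘ (X - C α)) y) with hp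
  have eQ : aeval a Q (i s + j y) = i (v • s + q) + j (aeval T Q y) := by
    rw [map_add, h.aeval_i, h.aeval_j]
    simp [hq, hv, add_assoc]
  have eP : aeval a P (i s + j y) = i (u • s + p) + j (aeval T P y) := by
    rw [map_add, h.aeval_i, h.aeval_j]
    simp [hp, hu, add_assoc]
  set w := aeval T (G P Q α) y with hw
  have hrw : r w = v • p - u • q := by
    simp [hw, G, hp, hq, hu, hv]
  have hTw : T w - α • w = v • aeval T P y - u • aeval T Q y := by
    have := congrArg (fun f => aeval T f y) (G_spec P Q α)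
    simpa [sub_mul, hu, hv, hw] using this
  have hQ1 : aeval T (Q1 P Q α) y = conj v • aeval T Q y - conj u • aeval T P y := by
    simp [Q1, hu, hv]
  have hP1 : aeval T (P1 P Q α) y = w - conj α • T w := by
    simp [P1, sub_mul, hw, mul_assoc]
  rw [eQ, eP, h.norm_sq, h.norm_sq, hQ1, hP1, hrw, id2a]
  have i1 := id1 u v s q p
  have i2 := id2b α w (T w)
  rw [hTw] at i2
  linear_combination i1 + i2

end Block

end Pool.Agent.Helper40.Ptak
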