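import Pool.Agent.Helper40.Ptak.Step
import Pool.Agent.Helper40.Ptak.Disc

open Polynomial ComplexConjugate

namespace Pool.Agent.Helper40.Ptak

/-- scalar operator on `ℂ` -/
lemma aeval_scalar {H : Type*} [NormedAddCommGroup H] [InnerProductSpace ℂ H] (z : ℂ) (q : ℂ[X])
    (x : H) : aeval (z • ContinuousLinearMap.id ℂ H) q x = q.eval z • x := by
  induction q using Polynomial.induction_on' with
  | add p q hp hq => simp [hp, hq, add_smul]
  | monomial n c =>
    induction n generalizing c with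
    | zero => simp
    | succ n ih =>
      have : (monomial (n + 1) c : ℂ[X]) = X * monomial n c := by rw [X_mul_monomial]
      rw [this, aeval_X_mul', ih]
      simp only [ContinuousLinearMap.smul_apply, ContinuousLinearMap.id_apply, smul_smul]
      congr 1
      simp
      ring

lemma norm_scalar_le {z : ℂ} (hz : ‖z‖ ≤ 1) : ‖z • ContinuousLinearMap.id ℂ ℂ‖ ≤ 1 := by
  rw [norm_smul]
  calc ‖z‖ * ‖ContinuousLinearMap.id ℂ ℂ‖ ≤ 1 * 1 := by
        gcongr
        exact ContinuousLinearMap.norm_id_le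
    _ = 1 := one_mul _

lemma scalar_ann {z : ℂ} {ℓ : List ℂ} (hz : z ∈ ℓ) :
    aeval (z • ContinuousLinearMap.id ℂ ℂ) (nodePoly ℓ) = 0 := by
  ext
  rw [aeval_scalar, nodePoly_eval_of_mem hz]
  simp

lemma WD.scalar {p : ℝ} (hp : p ≤ 1) {n : ℕ} (hn : n ≠ 0) {P Q : ℂ[X]} (h : WD p n P Q) {z : ℂ}
    (hz : ‖z‖ ≤ p) : ‖P.eval z‖ ≤ ‖Q.eval z‖ := by
  have h1 := h ℂ (z • ContinuousLinearMap.id ℂ ℂ) (norm_scalar_le (hz.trans hp))
    (List.replicate n z) (by simp) (by intro w hw; rw [List.eq_of_mem_replicate hw]; exact hz)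
    (scalar_ann (List.mem_replicate.mpr ⟨hn, rfl⟩)) 1
  rw [aeval_scalar, aeval_scalar] at h1
  simpa using h1

lemma EX.of_scalar {P Q : ℂ[X]} {z : ℂ} {ℓ : List ℂ} (hz : z ∈ ℓ) (hz1 : ‖z‖ ≤ 1)
    (h : ‖P.eval z‖ = ‖Q.eval z‖) : EX ℓ P Q := by
  refine ⟨ℂ, inferInstance, inferInstance, inferInstance, z • ContinuousLinearMap.id ℂ ℂ,
    norm_scalar_le hz1, scalar_ann hz, 1, one_ne_zero, ?_⟩
  rw [aeval_scalar, aeval_scalar]
  simpa using h

lemma EX.to_scalar {P Q : ℂ[X]} {z : ℂ} (h : EX [z] P Q) : ‖P.eval z‖ = ‖Q.eval z‖ := by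
  obtain ⟨H, i1, i2, i3, a, ha, hann, x, hx, heq⟩ := h
  have ha' : a = z • ContinuousLinearMap.id ℂ H := by
    have : aeval a (nodePoly [z]) = a - algebraMap ℂ _ z := by simp
    rw [this, sub_eq_zero] at hann
    rw [hann, Algebra.algebraMap_eq_smul_one]
    rfl
  rw [ha', aeval_scalar, aeval_scalar, norm_smul, norm_smul] at heq
  exact mul_right_cancel₀ (norm_ne_zero_iff.mpr hx) heq

lemma EX.swap {P Q : ℂ[X]} {z w : ℂ} {ℓ : List ℂ} (h : EX (z :: w :: ℓ) P Q) :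
    EX (w :: z :: ℓ) P Q := by
  obtain ⟨H, i1, i2, i3, a, ha, hann, x, hx, heq⟩ := h
  refine ⟨H, i1, i2, i3, a, ha, ?_, x, hx, heq⟩
  rw [← hann]
  simp only [nodePoly_cons]
  congr 1
  ring

lemma WD.mono {p : ℝ} (hp : 0 ≤ p) {n : ℕ} {P Q : ℂ[X]} (h : WD p (n + 1) P Q) : WD p n P Q := by
  intro H _ _ _ a ha ℓ hℓ hnodes hann x
  refine h H a ha (0 :: ℓ) (by simp [hℓ]) ?_ ?_ x
  · intro z hz
    rcases List.mem_cons.mp hz with h | h
    · rw [h]; simpa using hp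
    · exact hnodes z h
  · rw [nodePoly_cons, map_mul, hann, mul_zero]

lemma WD.mul_const {p : ℝ} {n : ℕ} {P Q : ℂ[X]} (h : WD p n P Q) {t : ℝ} (ht : 1 ≤ t) :
    WD p n P (C (t : ℂ) * Q) := by
  intro H _ _ _ a ha ℓ hℓ hnodes hann x
  have h1 := h H a ha ℓ hℓ hnodes hann x
  have h2 : aeval a (C (t : ℂ) * Q) x = (t : ℂ) • aeval a Q x := by simp
  rw [h2, norm_smul, Complex.norm_real, Real.norm_eq_abs, abs_of_nonneg (by linarith)]
  have := norm_nonneg (aeval a Q x)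
  nlinarith

lemma P1_eval {P Q : ℂ[X]} {z w : ℂ} :
    (P1 P Q z).eval w * (w - z) = (1 - conj z * w) * (Q.eval z * P.eval w - P.eval z * Q.eval w) := by
  have h := congrArg (fun f => f.eval w) (G_spec P Q z)
  simp only [eval_mul, eval_sub, eval_X, eval_C] at h
  rw [P1]
  simp only [eval_mul, eval_sub, eval_X, eval_C, eval_one]
  linear_combination (1 - conj z * w) * h

lemma Q1_eval {P Q : ℂ[X]} {z w : ℂ} :
    (Q1 P Q z).eval w = conj (Q.eval z) * Q.eval w - conj (P.eval z) * P.eval w := by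
  simp [Q1]

/-- Two-point inequality, nondegenerate case. -/
lemma WD.two_aux {p : ℝ} (hp : p < 1) {P Q : ℂ[X]} (h : WD p 2 P Q) {z w : ℂ} (hz : ‖z‖ ≤ p)
    (hw : ‖w‖ ≤ p) (hd : ‖P.eval z‖ < ‖Q.eval z‖) :
    ‖1 - conj z * w‖ * ‖Q.eval z * P.eval w - P.eval z * Q.eval w‖ ≤
      ‖w - z‖ * ‖conj (Q.eval z) * Q.eval w - conj (P.eval z) * P.eval w‖ := by
  have h1 := h.step hp hz hd
  have h2 := h1.scalar hp.le one_ne_zero hw
  rw [Q1_eval] at h2
  have h3 := congrArg norm (P1_eval (P := P) (Q := Q) (z := z) (w := w))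
  rw [norm_mul, norm_mul] at h3
  rw [← h3, mul_comm]
  gcongr

/-- Two-point inequality. -/
lemma WD.two {p : ℝ} (hp : p < 1) {P Q : ℂ[X]} (h : WD p 2 P Q)
    {z w : ℂ} (hz : ‖z‖ ≤ p) (hw : ‖w‖ ≤ p) (hQ : Q.eval z ≠ 0) :
    ‖1 - conj z * w‖ * ‖Q.eval z * P.eval w - P.eval z * Q.eval w‖ ≤
      ‖w - z‖ * ‖conj (Q.eval z) * Q.eval w - conj (P.eval z) * P.eval w‖ := by
  have hle := h.scalar hp.le two_ne_zero hz
  -- apply to `t Q`
  have key : ∀ t : ℝ, 1 < t →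
      ‖1 - conj z * w‖ * ‖(t : ℂ) * Q.eval z * P.eval w - P.eval z * ((t : ℂ) * Q.eval w)‖ ≤
      ‖w - z‖ * ‖conj ((t : ℂ) * Q.eval z) * ((t : ℂ) * Q.eval w) - conj (P.eval z) * P.eval w‖ := by
    intro t ht
    have h1 := (h.mul_const ht.le).two_aux hp hz hw (by
      rw [eval_mul, eval_C, norm_mul, Complex.norm_real, Real.norm_eq_abs,
        abs_of_nonneg (by linarith)]
      have := norm_pos_iff.mpr hQ
      nlinarith)
    simpa using h1
  have hc1 : Continuous fun t : ℝ => ‖1 - conj z * w‖ *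
      ‖(t : ℂ) * Q.eval z * P.eval w - P.eval z * ((t : ℂ) * Q.eval w)‖ := by fun_prop
  have hc2 : Continuous fun t : ℝ => ‖w - z‖ * ‖conj ((t : ℂ) * Q.eval z) * ((t : ℂ) * Q.eval w)
      - conj (P.eval z) * P.eval w‖ := by
    apply Continuous.mul continuous_const
    apply Continuous.norm
    apply Continuous.sub _ continuous_const
    apply Continuous.mul _ (by fun_prop)
    exact Complex.continuous_conj.comp (by fun_prop)
  have t1 := (hc1.tendsto 1).mono_left (nhdsWithin_le_nhds (s := Set.Ioi 1))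
  have t2 := (hc2.tendsto 1).mono_left (nhdsWithin_le_nhds (s := Set.Ioi 1))
  have := le_of_tendsto_of_tendsto t1 t2 (by
    filter_upwards [self_mem_nhdsWithin] with t ht
    exact key t ht)
  simpa using this

/-- Everything is extremal. -/
def Deg (p : ℝ) (P Q : ℂ[X]) : Prop := ∀ z, ‖z‖ ≤ p → ‖P.eval z‖ = ‖Q.eval z‖

lemma Deg.ex {p : ℝ} (hp : p ≤ 1) {P Q : ℂ[X]} (h : Deg p P Q) {ℓ : List ℂ} {z : ℂ} (hz : z ∈ ℓ)
    (hzp : ‖z‖ ≤ p) : EX ℓ P Q :=
  EX.of_scalar hz (hzp.trans hp) (h z hzp)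

lemma WD.deg_of_eq {p : ℝ} (hp : p < 1) {P Q : ℂ[X]} (h : WD p 2 P Q)
    (hQ : ∀ z, ‖z‖ ≤ p → Q.eval z ≠ 0) {z : ℂ} (hz : ‖z‖ ≤ p) (heq : ‖P.eval z‖ = ‖Q.eval z‖) :
    Deg p P Q := by
  intro w hw
  have h2 := h.two hp hz hw (hQ z hz)
  have hv := hQ z hz
  have hvpos := norm_pos_iff.mpr hv
  have hu : P.eval z ≠ 0 := by
    intro h0
    rw [h0, norm_zero] at heq
    linarith
  -- |conj v Q(w) - conj u P(w)| = |v P(w) - u Q(w)|
  have e1 : ‖conj (Q.eval z) * Q.eval w - conj (P.eval z) * P.eval w‖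
      = ‖Q.eval z * P.eval w - P.eval z * Q.eval w‖ := by
    have hsq : conj (P.eval z) * P.eval z = conj (Q.eval z) * Q.eval z := by
      rw [Complex.conj_mul', Complex.conj_mul', heq]
    have e2 : P.eval z * (conj (Q.eval z) * Q.eval w - conj (P.eval z) * P.eval w)
        = -conj (Q.eval z) * (Q.eval z * P.eval w - P.eval z * Q.eval w) := by
      linear_combination (-P.eval w) * hsq
    have e3 := congrArg norm e2
    rw [norm_mul, norm_mul, norm_neg, RCLike.norm_conj, heq] at e3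
    exact mul_left_cancel₀ hvpos.ne' e3
  rw [e1] at h2
  have hz1 : ‖z‖ < 1 := lt_of_le_of_lt hz hp
  have hw1 : ‖w‖ < 1 := lt_of_le_of_lt hw hp
  have h3 : ‖w - z‖ < ‖1 - conj z * w‖ := by
    have := sq_id z w
    rw [norm_sub_rev w z]
    have hz0 := norm_nonneg z
    have hw0 := norm_nonneg w
    have hpos : 0 < (1 - ‖z‖ ^ 2) * (1 - ‖w‖ ^ 2) := by
      apply mul_pos <;> nlinarith
    exact lt_of_pow_lt_pow_left₀ 2 (norm_nonneg _) (by linarith)
  have h4 : ‖Q.eval z * P.eval w - P.eval z * Q.eval w‖ = 0 := by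
    by_contra hne
    have hpos : 0 < ‖Q.eval z * P.eval w - P.eval z * Q.eval w‖ :=
      lt_of_le_of_ne (norm_nonneg _) (Ne.symm hne)
    nlinarith
  have h5 : Q.eval z * P.eval w = P.eval z * Q.eval w := by
    rw [norm_eq_zero, sub_eq_zero] at h4
    exact h4
  have h6 := congrArg norm h5
  rw [norm_mul, norm_mul, heq] at h6
  exact mul_left_cancel₀ hvpos.ne' h6

lemma deg_of_interior {p : ℝ} {P Q : ℂ[X]} (hle : ∀ z, ‖z‖ ≤ p → ‖P.eval z‖ ≤ ‖Q.eval z‖)
    (hQ : ∀ z, ‖z‖ ≤ p → Q.eval z ≠ 0) {z : ℂ} (hz : ‖z‖ < p) (heq : ‖P.eval z‖ = ‖Q.eval z‖) :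
    Deg p P Q := by
  have hp : 0 < p := lt_of_le_of_lt (norm_nonneg z) hz
  set f : ℂ → ℂ := fun w => P.eval w / Q.eval w with hf
  have hcl : closure (Metric.ball (0 : ℂ) p) = Metric.closedBall 0 p := closure_ball _ hp.ne'
  have hcont : ContinuousOn f (Metric.closedBall 0 p) := by
    intro w hw
    apply ContinuousAt.continuousWithinAt
    exact ContinuousAt.div P.continuous.continuousAt Q.continuous.continuousAt
      (hQ w (by simpa using hw))
  have hd : DiffContOnCl ℂ f (Metric.ball 0 p) := by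
    constructor
    · intro w hw
      apply DifferentiableAt.differentiableWithinAt
      exact DifferentiableAt.div P.differentiableAt Q.differentiableAt
        (hQ w (le_of_lt (by simpa using hw)))
    · rw [hcl]; exact hcont
  have hmax : IsMaxOn (norm ∘ f) (Metric.ball 0 p) z := by
    intro w hw
    have hw' : ‖w‖ ≤ p := le_of_lt (by simpa using hw)
    simp only [Set.mem_setOf_eq, Function.comp_apply, hf, norm_div]
    rw [heq, div_self (norm_ne_zero_iff.mpr (hQ z hz.le))]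
    rw [div_le_one (norm_pos_iff.mpr (hQ w hw'))]
    exact hle w hw'
  have := Complex.eqOn_closure_of_isPreconnected_of_isMaxOn_norm
    (Metric.isPreconnected_ball) Metric.isOpen_ball hd (by simpa using hz) hmax
  intro w hw
  have h1 := this (by rw [hcl]; simpa using hw : w ∈ closure (Metric.ball (0 : ℂ) p))
  have h2 := congrArg norm h1
  simp only [Function.const_apply, hf, norm_div] at h2
  rw [heq, div_self (norm_ne_zero_iff.mpr (hQ z hz.le))] at h2
  rwa [div_eq_one_iff_eq (norm_ne_zero_iff.mpr (hQ w hw))] at h2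


lemma pd_div {P Q : ℂ[X]} {z w : ℂ} (hz : Q.eval z ≠ 0) (hw : Q.eval w ≠ 0) :
    pd (P.eval z / Q.eval z) (P.eval w / Q.eval w) =
      ‖Q.eval z * P.eval w - P.eval z * Q.eval w‖ /
        ‖conj (Q.eval z) * Q.eval w - conj (P.eval z) * P.eval w‖ := by
  have hz' : conj (Q.eval z) ≠ 0 := by simpa using hz
  have e1 : P.eval z / Q.eval z - P.eval w / Q.eval w =
      -(Q.eval z * P.eval w - P.eval z * Q.eval w) / (Q.eval z * Q.eval w) := by
    field_simp
    ring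
  have e2 : 1 - conj (P.eval z / Q.eval z) * (P.eval w / Q.eval w) =
      (conj (Q.eval z) * Q.eval w - conj (P.eval z) * P.eval w) / (conj (Q.eval z) * Q.eval w) := by
    rw [map_div₀]
    field_simp
  rw [pd, e1, e2, norm_div, norm_div, norm_neg, norm_mul (Q.eval z), norm_mul (conj (Q.eval z)),
    RCLike.norm_conj]
  have h1 := norm_pos_iff.mpr hz
  have h2 := norm_pos_iff.mpr hw
  rw [div_div_div_cancel_right₀]
  positivity

lemma Q1_ne {p : ℝ} {P Q : ℂ[X]} (hle : ∀ z, ‖z‖ ≤ p → ‖P.eval z‖ ≤ ‖Q.eval z‖)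
    (hQ : ∀ z, ‖z‖ ≤ p → Q.eval z ≠ 0) {α : ℂ} (hd : ‖P.eval α‖ < ‖Q.eval α‖) :
    ∀ z, ‖z‖ ≤ p → (Q1 P Q α).eval z ≠ 0 := by
  intro z hz h0
  rw [Q1_eval, sub_eq_zero] at h0
  have h1 := congrArg norm h0
  rw [norm_mul, norm_mul, RCLike.norm_conj, RCLike.norm_conj] at h1
  have h2 := hle z hz
  have h3 := norm_pos_iff.mpr (hQ z hz)
  have h4 := norm_nonneg (P.eval α)
  have h5 := norm_nonneg (P.eval z)
  nlinarith

/-- Equality in the two-point inequality at two distinct points. -/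
lemma collapse_two {p : ℝ} (hp : p < 1) {P Q : ℂ[X]} (h : WD p 2 P Q)
    (hQ : ∀ z, ‖z‖ ≤ p → Q.eval z ≠ 0) {α β : ℂ} (hα : ‖α‖ ≤ p) (hβ : ‖β‖ ≤ p) (hne : α ≠ β)
    (hEX : EX [α, β] P Q) : EX [β, β] P Q := by
  by_cases hdeg : ∃ z, ‖z‖ ≤ p ∧ ‖P.eval z‖ = ‖Q.eval z‖
  · obtain ⟨z, hz, heq⟩ := hdeg
    exact (h.deg_of_eq hp hQ hz heq).ex hp.le (z := β) (by simp) hβ
  · push Not at hdeg
    have hle : ∀ z, ‖z‖ ≤ p → ‖P.eval z‖ ≤ ‖Q.eval z‖ := fun z hz =>
      h.scalar hp.le two_ne_zero hz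
    have hlt : ∀ z, ‖z‖ ≤ p → ‖P.eval z‖ < ‖Q.eval z‖ := fun z hz =>
      lt_of_le_of_ne (hle z hz) (hdeg z hz)
    have hwd1 := h.step hp hβ (hlt β hβ)
    have hex1 : EX [α] (P1 P Q β) (Q1 P Q β) :=
      hEX.swap.down (n := 1) (p := p) rfl (by simpa using hα) (lt_of_le_of_lt hβ hp)
        (hlt β hβ) hwd1
    have heq1 := hex1.to_scalar
    have hden : ∀ w, ‖w‖ ≤ p →
        0 < ‖conj (Q.eval β) * Q.eval w - conj (P.eval β) * P.eval w‖ := by
      intro w hw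
      have := Q1_ne hle hQ (hlt β hβ) w hw
      rw [Q1_eval] at this
      exact norm_pos_iff.mpr this
    have hdenz : ∀ z w, ‖z‖ ≤ p → ‖w‖ ≤ p →
        0 < ‖conj (Q.eval z) * Q.eval w - conj (P.eval z) * P.eval w‖ := by
      intro z w hz hw
      have := Q1_ne hle hQ (hlt z hz) w hw
      rw [Q1_eval] at this
      exact norm_pos_iff.mpr this
    -- translation of equality
    have htr : ∀ w, ‖w‖ ≤ p → w ≠ β → (‖(P1 P Q β).eval w‖ = ‖(Q1 P Q β).eval w‖ ↔
        pd (P.eval β / Q.eval β) (P.eval w / Q.eval w) = pd β w) := by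
      intro w hw hwβ
      rw [pd_div (hQ β hβ) (hQ w hw), Q1_eval, pd]
      have h3 := congrArg norm (P1_eval (P := P) (Q := Q) (z := β) (w := w))
      rw [norm_mul, norm_mul] at h3
      have h4 : 0 < ‖w - β‖ := norm_pos_iff.mpr (sub_ne_zero.mpr hwβ)
      have h5 := hden w hw
      have h6 : 0 < ‖1 - conj β * w‖ :=
        norm_pos_iff.mpr (den_ne (lt_of_le_of_lt hβ hp) (lt_of_le_of_lt hw hp))
      rw [norm_sub_rev β w, div_eq_div_iff h5.ne' h6.ne']
      constructor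
      · intro h7
        rw [h7] at h3
        linarith
      · intro h7
        have h8 : ‖(P1 P Q β).eval w‖ * ‖w - β‖
          = ‖conj (Q.eval β) * Q.eval w - conj (P.eval β) * P.eval w‖ * ‖w - β‖ := by
          rw [h3]; linarith
        exact mul_right_cancel₀ h4.ne' h8
    obtain ⟨z, hz, hzβ, hzeq⟩ := geo hp (fun z => P.eval z / Q.eval z)
      (by
        intro z hz
        rw [norm_div, div_lt_one (norm_pos_iff.mpr (hQ z hz))]
        exact hlt z hz)
      (by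
        intro z w hz hw
        rw [pd_div (hQ z hz) (hQ w hw), pd]
        have h6 : 0 < ‖1 - conj z * w‖ :=
          norm_pos_iff.mpr (den_ne (lt_of_le_of_lt hz hp) (lt_of_le_of_lt hw hp))
        rw [div_le_div_iff₀ (hdenz z w hz hw) h6, norm_sub_rev z w]
        have := h.two hp hz hw (hQ z hz)
        linarith)
      hα hβ hne ((htr α hα hne).mp heq1)
    have heqz := (htr z hz.le hzβ).mpr hzeq
    have hdeg1 : Deg p (P1 P Q β) (Q1 P Q β) :=
      deg_of_interior (fun w hw => hwd1.scalar hp.le one_ne_zero hw)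
        (Q1_ne hle hQ (hlt β hβ)) hz heqz
    exact (hdeg1.ex hp.le (ℓ := [β]) (by simp) hβ).up (hβ.trans hp.le) (hlt β hβ)

lemma collapse {p : ℝ} (hp0 : 0 ≤ p) (hp : p < 1) (n : ℕ) : ∀ {P Q : ℂ[X]}, WD p (n + 2) P Q →
    (∀ z, ‖z‖ ≤ p → Q.eval z ≠ 0) → ∀ {α β : ℂ}, ‖α‖ ≤ p → ‖β‖ ≤ p → α ≠ β →
    EX (α :: List.replicate (n + 1) β) P Q → EX (List.replicate (n + 2) β) P Q := by
  induction n with
  | zero =>
    intro P Q h hQ α β hα hβ hne hEX
    exact collapse_two hp h hQ hα hβ hne hEX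
  | succ n ih =>
    intro P Q h hQ α β hα hβ hne hEX
    have hle : ∀ z, ‖z‖ ≤ p → ‖P.eval z‖ ≤ ‖Q.eval z‖ := fun z hz =>
      h.scalar hp.le (by omega) hz
    rcases eq_or_lt_of_le (hle β hβ) with heq | hlt
    · exact EX.of_scalar (z := β) (by simp) (hβ.trans hp.le) heq
    · have hwd1 := h.step hp hβ hlt
      have hex1 : EX (α :: List.replicate (n + 1) β) (P1 P Q β) (Q1 P Q β) := by
        rw [List.replicate_succ] at hEX
        refine hEX.swap.down (n := n + 2) (p := p) (by simp) ?_ (lt_of_le_of_lt hβ hp)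
          hlt hwd1
        intro z hz
        rcases List.mem_cons.mp hz with h | h
        · rw [h]; exact hα
        · rw [List.eq_of_mem_replicate h]; exact hβ
      have := ih hwd1 (Q1_ne hle hQ hlt) hα hβ hne hex1
      exact this.up (hβ.trans hp.le) hlt

theorem extremal_diag {p : ℝ} (hp0 : 0 ≤ p) (hp : p < 1) (n : ℕ) : ∀ {P Q : ℂ[X]},
    WD p (n + 1) P Q → (∀ z, ‖z‖ ≤ p → Q.eval z ≠ 0) → ∀ ℓ : List ℂ, ℓ.length = n + 1 →
    (∀ z ∈ ℓ, ‖z‖ ≤ p) → EX ℓ P Q → ∃ β : ℂ, ‖β‖ = p ∧ EX (List.replicate (n + 1) β) P Q := by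
  have hpp : ‖((p : ℝ) : ℂ)‖ = p := by
    rw [Complex.norm_real, Real.norm_eq_abs, abs_of_nonneg hp0]
  induction n with
  | zero =>
    intro P Q h hQ ℓ hℓ hnodes hEX
    obtain ⟨α, rfl⟩ := List.length_eq_one_iff.mp hℓ
    have hα : ‖α‖ ≤ p := hnodes α (by simp)
    rcases eq_or_lt_of_le hα with h1 | h1
    · exact ⟨α, h1, hEX⟩
    · have hd := deg_of_interior (fun w hw => h.scalar hp.le one_ne_zero hw) hQ h1 hEX.to_scalar
      exact ⟨p, hpp, hd.ex hp.le (z := (p : ℂ)) (by simp) hpp.le⟩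
  | succ n ih =>
    intro P Q h hQ ℓ hℓ hnodes hEX
    obtain ⟨α, ℓ', rfl⟩ := List.exists_cons_of_length_eq_add_one hℓ
    have hα : ‖α‖ ≤ p := hnodes α (by simp)
    have hle : ∀ z, ‖z‖ ≤ p → ‖P.eval z‖ ≤ ‖Q.eval z‖ := fun z hz =>
      h.scalar hp.le (by omega) hz
    have h2 : WD p 2 P Q := by
      clear ih hℓ
      induction n with
      | zero => exact h
      | succ m ihm => exact ihm (h.mono hp0)
    rcases eq_or_lt_of_le (hle α hα) with heq | hlt
    · have hd := h2.deg_of_eq hp hQ hα heq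
      exact ⟨p, hpp, hd.ex hp.le (z := (p : ℂ)) (by simp) hpp.le⟩
    · have hwd1 := h.step hp hα hlt
      have hlen : ℓ'.length = n + 1 := by simpa using hℓ
      have hnodes' : ∀ z ∈ ℓ', ‖z‖ ≤ p := fun z hz => hnodes z (by simp [hz])
      have hex1 := hEX.down hlen hnodes' (lt_of_le_of_lt hα hp) hlt hwd1
      obtain ⟨β, hβ, hex2⟩ := ih hwd1 (Q1_ne hle hQ hlt) ℓ' hlen hnodes' hex1
      have hex3 := hex2.up (hα.trans hp.le) hlt
      by_cases hαβ : α = β
      · refine ⟨β, hβ, ?_⟩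
        rw [hαβ] at hex3
        exact hex3
      · exact ⟨β, hβ, collapse hp0 hp n h hQ hα hβ.le hαβ hex3⟩

end Pool.Agent.Helper40.Ptak
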