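import Pool.Agent.Helper40.Ptak.Main

open Polynomial ComplexConjugate

namespace Pool.Agent.Helper40.Ptak

/-- Entries of the model matrix. -/
noncomputable def modelMatrix (n : ℕ) (α : ℂ) : Matrix (Fin n) (Fin n) ℂ :=
  Matrix.of fun i j =>
    if i = j then α
    else if i < j then (1 - (‖α‖ : ℂ) ^ 2) * (-conj α) ^ ((j : ℕ) - (i : ℕ) - 1)
    else 0

/-- The model operator. -/
noncomputable def model (n : ℕ) (α : ℂ) :
    EuclideanSpace ℂ (Fin n) →L[ℂ] EuclideanSpace ℂ (Fin n) :=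
  Matrix.toEuclideanCLM (n := Fin n) (𝕜 := ℂ) (modelMatrix n α)

lemma model_apply (n : ℕ) (α : ℂ) (x : EuclideanSpace ℂ (Fin n)) (i : Fin n) :
    model n α x i = ∑ j, modelMatrix n α i j * x j := by
  simp [model, Matrix.mulVec, dotProduct]


/-- first coordinate inclusion -/
noncomputable def mi (n : ℕ) : ℂ →ₗᵢ[ℂ] EuclideanSpace ℂ (Fin (n + 1)) where
  toFun s := WithLp.toLp 2 (Fin.cons s (fun _ => 0))
  map_add' x y := by
    ext i
    refine Fin.cases ?_ (fun i => ?_) i <;> simp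
  map_smul' c x := by
    ext i
    refine Fin.cases ?_ (fun i => ?_) i <;> simp
  norm_map' x := by
    rw [EuclideanSpace.norm_eq]
    simp [Fin.sum_univ_succ]

/-- remaining coordinates inclusion -/
noncomputable def mj (n : ℕ) : EuclideanSpace ℂ (Fin n) →ₗᵢ[ℂ] EuclideanSpace ℂ (Fin (n + 1)) where
  toFun y := WithLp.toLp 2 (Fin.cons 0 (fun i => y i))
  map_add' x y := by
    ext i
    refine Fin.cases ?_ (fun i => ?_) i <;> simp
  map_smul' c x := by
    ext i
    refine Fin.cases ?_ (fun i => ?_) i <;> simp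
  norm_map' x := by
    rw [EuclideanSpace.norm_eq, EuclideanSpace.norm_eq]
    simp [Fin.sum_univ_succ]

@[simp] lemma mi_apply_zero (n : ℕ) (s : ℂ) : mi n s 0 = s := rfl
@[simp] lemma mi_apply_succ (n : ℕ) (s : ℂ) (i : Fin n) : mi n s i.succ = 0 := rfl
@[simp] lemma mj_apply_zero (n : ℕ) (y : EuclideanSpace ℂ (Fin n)) : mj n y 0 = 0 := rfl
@[simp] lemma mj_apply_succ (n : ℕ) (y : EuclideanSpace ℂ (Fin n)) (i : Fin n) :
    mj n y i.succ = y i := rfl

/-- the functional `y ↦ ∑ (-conj α)^k y_k`. -/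
noncomputable def me (n : ℕ) (α : ℂ) : EuclideanSpace ℂ (Fin n) →L[ℂ] ℂ :=
  LinearMap.toContinuousLinearMap
    { toFun := fun y => ∑ k : Fin n, (-conj α) ^ (k : ℕ) * y k
      map_add' := by
        intro x y
        simp [mul_add, Finset.sum_add_distrib]
      map_smul' := by
        intro c x
        simp only [PiLp.smul_apply, smul_eq_mul, RingHom.id_apply, Finset.mul_sum]
        apply Finset.sum_congr rfl
        intro k _
        ring }

lemma me_apply (n : ℕ) (α : ℂ) (y : EuclideanSpace ℂ (Fin n)) :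
    me n α y = ∑ k : Fin n, (-conj α) ^ (k : ℕ) * y k := rfl

lemma me_succ (n : ℕ) (α : ℂ) (s : ℂ) (y : EuclideanSpace ℂ (Fin n)) :
    me (n + 1) α (mi n s + mj n y) = s - conj α * me n α y := by
  rw [me_apply, me_apply, Fin.sum_univ_succ]
  simp only [PiLp.add_apply, mi_apply_zero, mj_apply_zero, mi_apply_succ, mj_apply_succ,
    Fin.val_zero, pow_zero, one_mul, add_zero, zero_add, Fin.val_succ, Finset.mul_sum]
  rw [sub_eq_add_neg, ← Finset.sum_neg_distrib]
  congr 1
  apply Finset.sum_congr rfl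
  intro k _
  ring

/-- the row of the model -/
noncomputable def mr (n : ℕ) (α : ℂ) : EuclideanSpace ℂ (Fin n) →L[ℂ] ℂ :=
  (1 - (‖α‖ : ℂ) ^ 2) • me n α

lemma model_span (n : ℕ) (x : EuclideanSpace ℂ (Fin (n + 1))) : ∃ s y, x = mi n s + mj n y := by
  refine ⟨x 0, WithLp.toLp 2 (fun i => x i.succ), ?_⟩
  ext i
  refine Fin.cases ?_ (fun i => ?_) i <;> simp

lemma model_block (n : ℕ) (α : ℂ) :
    Block (model (n + 1) α) α (mr n α) (model n α) (mi n) (mj n) where
  orth s y := by
    rw [PiLp.inner_apply, Fin.sum_univ_succ]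
    simp
  ai s := by
    ext i
    rw [model_apply, Fin.sum_univ_succ]
    refine Fin.cases ?_ (fun i => ?_) i
    · simp [modelMatrix]
    · simp [modelMatrix]
  aj y := by
    ext i
    rw [model_apply, Fin.sum_univ_succ]
    refine Fin.cases ?_ (fun i => ?_) i
    · simp only [mj_apply_zero, mul_zero, zero_add, mj_apply_succ, PiLp.add_apply, mi_apply_zero,
        add_zero, mr, ContinuousLinearMap.smul_apply, me_apply, smul_eq_mul, Finset.mul_sum]
      apply Finset.sum_congr rfl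
      intro k _
      have h1 : (0 : Fin (n + 1)) ≠ k.succ := (Fin.succ_ne_zero k).symm
      have h2 : (0 : Fin (n + 1)) < k.succ := Fin.succ_pos k
      simp only [modelMatrix, Matrix.of_apply, h1, h2, if_false, if_true]
      simp
      ring
    · simp only [mj_apply_zero, mul_zero, zero_add, mj_apply_succ, PiLp.add_apply, mi_apply_succ,
        model_apply]
      apply Finset.sum_congr rfl
      intro k _
      congr 1
      simp only [modelMatrix, Matrix.of_apply, Fin.succ_inj, Fin.succ_lt_succ_iff, Fin.val_succ]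
      congr 3
      congr 1
      omega

lemma defect (n : ℕ) (α : ℂ) : ∀ w : EuclideanSpace ℂ (Fin n),
    ‖w‖ ^ 2 - ‖model n α w‖ ^ 2 = (1 - ‖α‖ ^ 2) * ‖me n α w‖ ^ 2 := by
  induction n with
  | zero =>
    intro w
    have : w = 0 := Subsingleton.elim _ _
    simp [this]
  | succ n ih =>
    intro w
    obtain ⟨s, y, rfl⟩ := model_span n w
    rw [(model_block n α).norm_sq, (model_block n α).apply_norm_sq, me_succ]
    have h := ih y
    simp only [mr, ContinuousLinearMap.smul_apply, smul_eq_mul]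
    set e := me n α y
    have h2 : ‖s‖ ^ 2 - ‖α * s + (1 - (‖α‖ : ℂ) ^ 2) * e‖ ^ 2 + (1 - ‖α‖ ^ 2) * ‖e‖ ^ 2
        = (1 - ‖α‖ ^ 2) * ‖s - conj α * e‖ ^ 2 := by
      have hα : (‖α‖ : ℂ) ^ 2 = conj α * α := (Complex.conj_mul' α).symm
      have hα' : ‖α‖ ^ 2 = α.re ^ 2 + α.im ^ 2 := by
        rw [← Complex.normSq_eq_norm_sq, Complex.normSq_apply]; ring
      rw [hα, hα']
      simp only [← Complex.normSq_eq_norm_sq]
      simp only [Complex.normSq_apply, Complex.sub_re, Complex.sub_im, Complex.mul_re,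
        Complex.mul_im, Complex.conj_re, Complex.conj_im, Complex.one_re, Complex.one_im,
        Complex.add_re, Complex.add_im]
      ring
    linarith

lemma mr_sq (n : ℕ) {α : ℂ} (hα : ‖α‖ ≤ 1) (w : EuclideanSpace ℂ (Fin n)) :
    ‖mr n α w‖ ^ 2 = (1 - ‖α‖ ^ 2) * (‖w‖ ^ 2 - ‖model n α w‖ ^ 2) := by
  rw [defect, mr]
  simp only [ContinuousLinearMap.smul_apply, smul_eq_mul, norm_mul]
  have h1 : ‖(1 - (‖α‖ : ℂ) ^ 2)‖ = 1 - ‖α‖ ^ 2 := by
    have : (1 - (‖α‖ : ℂ) ^ 2) = ((1 - ‖α‖ ^ 2 : ℝ) : ℂ) := by push_cast; rfl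
    rw [this, Complex.norm_real, Real.norm_eq_abs, abs_of_nonneg]
    have := norm_nonneg α
    nlinarith
  rw [h1]
  ring

lemma model_norm_le (n : ℕ) {α : ℂ} (hα : ‖α‖ ≤ 1) : ‖model n α‖ ≤ 1 := by
  apply ContinuousLinearMap.opNorm_le_bound _ zero_le_one
  intro w
  rw [one_mul]
  apply (pow_le_pow_iff_left₀ (norm_nonneg _) (norm_nonneg _) two_ne_zero).mp
  have h := defect n α w
  have h1 : 0 ≤ (1 - ‖α‖ ^ 2) * ‖me n α w‖ ^ 2 := by
    apply mul_nonneg _ (by positivity)
    have := norm_nonneg α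
    nlinarith
  linarith

lemma model_ann (n : ℕ) (α : ℂ) : aeval (model n α) (nodePoly (List.replicate n α)) = 0 := by
  induction n with
  | zero =>
    ext x i
    exact i.elim0
  | succ n ih =>
    rw [List.replicate_succ]
    exact (model_block n α).nodePoly_eq_zero (model_span n) _ ih

end Pool.Agent.Helper40.Ptak
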