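import Pool.Agent.Helper40.Ptak.Dom

open Polynomial ComplexConjugate

set_option maxHeartbeats 400000

namespace Pool.Agent.Helper40.Ptak

lemma aeval_nodePoly {A : Type*} [Ring A] [Algebra ℂ A] (a : A) (ℓ : List ℂ) :
    aeval a (nodePoly ℓ) = (ℓ.map fun z => a - algebraMap ℂ A z).prod := by
  induction ℓ with
  | nil => simp
  | cons z ℓ ih =>
    rw [nodePoly_cons, map_mul, ih]
    simp

/-- The set of pairs (contraction, nodes in the disc). -/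
def pairs (n : ℕ) (p : ℝ) : Set ((EuclideanSpace ℂ (Fin n) →L[ℂ] EuclideanSpace ℂ (Fin n)) ×
    (Fin n → ℂ)) :=
  {x | ‖x.1‖ ≤ 1 ∧ (∀ i, ‖x.2 i‖ ≤ p) ∧ aeval x.1 (nodePoly (List.ofFn x.2)) = 0}

lemma pairs_compact (n : ℕ) (p : ℝ) : IsCompact (pairs n p) := by
  haveI : ProperSpace (EuclideanSpace ℂ (Fin n) →L[ℂ] EuclideanSpace ℂ (Fin n)) :=
    FiniteDimensional.proper ℂ _
  have hsub : pairs n p = (Metric.closedBall 0 1 ×ˢ (Set.pi Set.univ fun _ => Metric.closedBall 0 p))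
      ∩ {x | aeval x.1 (nodePoly (List.ofFn x.2)) = 0} := by
    ext x
    simp [pairs, Set.mem_prod, Set.mem_pi, and_assoc]
  rw [hsub]
  apply IsCompact.inter_right
  · exact (isCompact_closedBall _ _).prod (isCompact_univ_pi fun _ => isCompact_closedBall _ _)
  · apply isClosed_eq _ continuous_const
    simp only [aeval_nodePoly]
    have : ∀ x : ((EuclideanSpace ℂ (Fin n) →L[ℂ] EuclideanSpace ℂ (Fin n)) × (Fin n → ℂ)),
        ((List.ofFn x.2).map fun z => x.1 - algebraMap ℂ _ z).prod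
        = ((List.finRange n).map fun i => x.1 - algebraMap ℂ _ (x.2 i)).prod := by
      intro x
      rw [List.ofFn_eq_map, List.map_map]
      rfl
    simp only [this]
    apply continuous_list_prod
    intro i _
    apply Continuous.sub continuous_fst
    simp only [Algebra.algebraMap_eq_smul_one]
    fun_prop

lemma exists_norm_attained {E F : Type*} [NormedAddCommGroup E] [InnerProductSpace ℂ E]
    [FiniteDimensional ℂ E] [NormedAddCommGroup F] [InnerProductSpace ℂ F] (T : E →L[ℂ] F)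
    (hT : T ≠ 0) : ∃ x, x ≠ 0 ∧ ‖T x‖ = ‖T‖ * ‖x‖ := by
  haveI : ProperSpace E := FiniteDimensional.proper ℂ _
  obtain ⟨x₀, hx₀, hmax⟩ := (isCompact_closedBall (0 : E) 1).exists_isMaxOn
    ⟨0, by simp⟩ (f := fun x => ‖T x‖) (by fun_prop)
  have hx₀' : ‖x₀‖ ≤ 1 := by simpa using hx₀
  have hle : ‖T‖ ≤ ‖T x₀‖ := by
    apply ContinuousLinearMap.opNorm_le_bound _ (norm_nonneg _)
    intro x
    by_cases hx : x = 0
    · simp [hx]
    · have hxpos := norm_pos_iff.mpr hx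
      have h1 := hmax (a := ((‖x‖⁻¹ : ℝ) : ℂ) • x) (by
        simp only [mem_closedBall_zero_iff, norm_smul, Complex.norm_real, norm_inv, norm_norm]
        rw [inv_mul_cancel₀ hxpos.ne'])
      simp only [Set.mem_setOf_eq, map_smul, norm_smul, Complex.norm_real, norm_inv,
        norm_norm] at h1
      calc ‖T x‖ = (‖x‖⁻¹ * ‖T x‖) * ‖x‖ := by field_simp
        _ ≤ ‖T x₀‖ * ‖x‖ := by gcongr
  have hTpos := norm_pos_iff.mpr hT
  have h2 := T.le_opNorm x₀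
  have h3 : 1 ≤ ‖x₀‖ := by
    by_contra h
    push Not at h
    nlinarith [norm_nonneg x₀]
  have h4 : ‖x₀‖ = 1 := le_antisymm hx₀' h3
  refine ⟨x₀, ?_, ?_⟩
  · intro h0
    rw [h0, norm_zero] at h4
    norm_num at h4
  · rw [h4, mul_one] at h2 ⊢
    exact le_antisymm h2 hle

lemma exists_ofFn {n : ℕ} (ℓ : List ℂ) (h : ℓ.length = n) : ∃ f : Fin n → ℂ, List.ofFn f = ℓ := by
  subst h
  exact ⟨ℓ.get, List.ofFn_get ℓ⟩

theorem poly_main {n : ℕ} (hn : n ≠ 0) {p : ℝ} (hp0 : 0 ≤ p) (hp : p < 1) (ψ : ℂ[X]) :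
    ∃ β : ℂ, ‖β‖ = p ∧ ∀ (a : EuclideanSpace ℂ (Fin n) →L[ℂ] EuclideanSpace ℂ (Fin n)), ‖a‖ ≤ 1 →
      ∀ ℓ : List ℂ, ℓ.length = n → (∀ z ∈ ℓ, ‖z‖ ≤ p) → aeval a (nodePoly ℓ) = 0 →
      ‖aeval a ψ‖ ≤ ‖aeval (model n β) ψ‖ := by
  obtain ⟨m, rfl⟩ := Nat.exists_eq_succ_of_ne_zero hn
  -- the extremal pair
  have hne : (pairs (m + 1) p).Nonempty := by
    refine ⟨(0, fun _ => 0), by simp, by simpa using hp0, ?_⟩
    rw [aeval_nodePoly]
    simp [List.ofFn_const]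
  obtain ⟨⟨a₀, f₀⟩, ⟨ha₀, hf₀, hann₀⟩, hmax⟩ := (pairs_compact (m + 1) p).exists_isMaxOn hne
    (f := fun x => ‖aeval x.1 ψ‖) (by
      apply Continuous.continuousOn
      apply Continuous.norm
      exact (Polynomial.continuous_aeval ψ).comp continuous_fst)
  simp only at ha₀ hf₀ hann₀
  have hmax' : ∀ x, x ∈ pairs (m + 1) p → ‖aeval x.1 ψ‖ ≤ ‖aeval a₀ ψ‖ := fun x hx => hmax hx
  clear hmax
  set M := ‖aeval a₀ ψ‖ with hM
  have hall : ∀ (a : EuclideanSpace ℂ (Fin (m + 1)) →L[ℂ] EuclideanSpace ℂ (Fin (m + 1))),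
      ‖a‖ ≤ 1 → ∀ ℓ : List ℂ, ℓ.length = m + 1 → (∀ z ∈ ℓ, ‖z‖ ≤ p) → aeval a (nodePoly ℓ) = 0 →
      ‖aeval a ψ‖ ≤ M := by
    intro a ha ℓ hℓ hnodes hann
    obtain ⟨f, rfl⟩ := exists_ofFn ℓ hℓ
    exact hmax' (a, f) ⟨ha, fun i => hnodes _ (by rw [List.mem_ofFn]; exact ⟨i, rfl⟩), hann⟩
  by_cases hM0 : M = 0
  · refine ⟨p, by rw [Complex.norm_real, Real.norm_eq_abs, abs_of_nonneg hp0], ?_⟩
    intro a ha ℓ hℓ hnodes hann
    have := hall a ha ℓ hℓ hnodes hann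
    rw [hM0] at this
    exact this.trans (norm_nonneg _)
  have hMpos : 0 < M := lt_of_le_of_ne (norm_nonneg _) (Ne.symm hM0)
  have hC : ∀ (K : Type) [NormedAddCommGroup K] [InnerProductSpace ℂ K] (b : K →L[ℂ] K) (y : K),
      ‖aeval b (C (M : ℂ)) y‖ = M * ‖y‖ := by
    intro K _ _ b y
    have : aeval b (C (M : ℂ)) y = (M : ℂ) • y := by simp
    rw [this, norm_smul, Complex.norm_real, Real.norm_eq_abs, abs_of_pos hMpos]
  have hWD : WD p (m + 1) ψ (C (M : ℂ)) := by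
    intro H _ _ _ a ha ℓ hℓ hnodes hann x
    have hℓne : ℓ ≠ [] := by
      intro h
      rw [h] at hℓ
      simp at hℓ
    have hcyc := cyclic a ha ℓ hℓne (fun z hz => (hnodes z hz).trans hp.le) hann x
    rw [hℓ] at hcyc
    obtain ⟨a', x', ha', hann', hq⟩ := hcyc
    rw [hC, ← hq ψ]
    have hx : ‖x'‖ = ‖x‖ := by simpa using hq 1
    rw [← hx]
    have h1 : ‖aeval a' ψ‖ ≤ M := hall a' ha' ℓ hℓ hnodes hann'
    calc ‖aeval a' ψ x'‖ ≤ ‖aeval a' ψ‖ * ‖x'‖ := ContinuousLinearMap.le_opNorm _ _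
      _ ≤ M * ‖x'‖ := by gcongr
  have hQ : ∀ z : ℂ, ‖z‖ ≤ p → (C (M : ℂ)).eval z ≠ 0 := by
    intro z _
    simpa using hM0
  have hEX : EX (List.ofFn f₀) ψ (C (M : ℂ)) := by
    have hne0 : aeval a₀ ψ ≠ 0 := by
      intro h
      apply hM0
      rw [hM, h, norm_zero]
    obtain ⟨x, hx, hxeq⟩ := exists_norm_attained (aeval a₀ ψ) hne0
    exact ⟨_, inferInstance, inferInstance, inferInstance, a₀, ha₀, hann₀, x, hx, by
      rw [hC, hxeq]⟩
  obtain ⟨β, hβ, H, i1, i2, i3, a, ha, hann, x, hx, heq⟩ := extremal_diag hp0 hp m hWD hQ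
    (List.ofFn f₀) (by simp) (by
      intro z hz
      rw [List.mem_ofFn] at hz
      obtain ⟨i, rfl⟩ := hz
      exact hf₀ i) hEX
  refine ⟨β, hβ, ?_⟩
  have hβ1 : ‖β‖ < 1 := by rw [hβ]; exact hp
  have h1 := model_dom_norm hβ1 ψ H a ha hann
  have h2 : M ≤ ‖aeval (model (m + 1) β) ψ‖ := by
    rw [hC] at heq
    have h3 := (aeval a ψ).le_opNorm x
    rw [heq] at h3
    have h4 := le_of_mul_le_mul_right h3 (norm_pos_iff.mpr hx)
    exact h4.trans h1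
  intro a ha ℓ hℓ hnodes hann
  exact (hall a ha ℓ hℓ hnodes hann).trans h2

end Pool.Agent.Helper40.Ptak
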