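import Pool.Agent.Helper40.Ptak.Final

open Polynomial ComplexConjugate Filter Topology

set_option maxHeartbeats 400000

namespace Pool.Agent.Helper40.Ptak

lemma iteratedDeriv_poly (q : ℂ[X]) (k : ℕ) :
    iteratedDeriv k (fun z => q.eval z) = fun z => (derivative^[k] q).eval z := by
  induction k with
  | zero => simp
  | succ k ih =>
    rw [iteratedDeriv_succ, ih]
    funext z
    rw [Function.iterate_succ_apply', Polynomial.deriv]

lemma tc_poly (q : ℂ[X]) (k : ℕ) : tc (fun z => q.eval z) k = q.coeff k := by
  rw [tc, iteratedDeriv_poly]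
  simp only
  rw [← coeff_zero_eq_eval_zero, coeff_iterate_derivative, zero_add, Nat.descFactorial_self,
    nsmul_eq_mul]
  have : (k.factorial : ℂ) ≠ 0 := Nat.cast_ne_zero.mpr k.factorial_ne_zero
  field_simp

/-- Sanity check: for polynomials, the Taylor series definition gives the usual `q(a)`. -/
theorem holo_poly {n : ℕ} (q : ℂ[X])
    (a : EuclideanSpace ℂ (Fin n) →L[ℂ] EuclideanSpace ℂ (Fin n)) :
    holo (fun z => q.eval z) a = aeval a q := by
  show (∑' k, tc (fun z => q.eval z) k • a ^ k) = _
  simp only [tc_poly]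
  rw [tsum_eq_sum (s := Finset.range (q.natDegree + 1))]
  · rw [aeval_eq_sum_range]
  · intro k hk
    have h : q.coeff k = 0 := by
      apply coeff_eq_zero_of_natDegree_lt
      simpa [Nat.lt_succ_iff] using hk
    rw [h]
    exact zero_smul ℂ (a ^ k)

end Pool.Agent.Helper40.Ptak
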