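import Pool.Agent.Helper40.Ptak.Ext

open Polynomial ComplexConjugate

namespace Pool.Agent.Helper40.Ptak

/-- `∏ (X - z)` over the nodes. -/
noncomputable def nodePoly (ℓ : List ℂ) : ℂ[X] := (ℓ.map fun z => X - C z).prod

@[simp] lemma nodePoly_nil : nodePoly [] = 1 := by simp [nodePoly]

@[simp] lemma nodePoly_cons (z : ℂ) (ℓ : List ℂ) :
    nodePoly (z :: ℓ) = (X - C z) * nodePoly ℓ := by simp [nodePoly]

/-- Weak domination. -/
def WD (p : ℝ) (n : ℕ) (P Q : ℂ[X]) : Prop :=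
  ∀ (H : Type) [NormedAddCommGroup H] [InnerProductSpace ℂ H] [FiniteDimensional ℂ H]
    (a : H →L[ℂ] H), ‖a‖ ≤ 1 → ∀ ℓ : List ℂ, ℓ.length = n → (∀ z ∈ ℓ, ‖z‖ ≤ p) →
    aeval a (nodePoly ℓ) = 0 → ∀ x, ‖aeval a P x‖ ≤ ‖aeval a Q x‖

/-- Extremality at a list of nodes. -/
def EX (ℓ : List ℂ) (P Q : ℂ[X]) : Prop :=
  ∃ (H : Type) (_ : NormedAddCommGroup H) (_ : InnerProductSpace ℂ H)
    (_ : FiniteDimensional ℂ H) (a : H →L[ℂ] H), ‖a‖ ≤ 1 ∧ aeval a (nodePoly ℓ) = 0 ∧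
    ∃ x, x ≠ 0 ∧ ‖aeval a P x‖ = ‖aeval a Q x‖

section Block

variable {H H₀ K : Type*} [NormedAddCommGroup H] [InnerProductSpace ℂ H]
  [NormedAddCommGroup H₀] [InnerProductSpace ℂ H₀]
  [NormedAddCommGroup K] [InnerProductSpace ℂ K]
  {a : H →L[ℂ] H} {α : ℂ} {r : K →L[ℂ] H₀} {T : K →L[ℂ] K}
  {i : H₀ →ₗᵢ[ℂ] H} {j : K →ₗᵢ[ℂ] H}

lemma Block.apply_norm_sq (h : Block a α r T i j) (s : H₀) (y : K) :
    ‖a (i s + j y)‖ ^ 2 = ‖α • s + r y‖ ^ 2 + ‖T y‖ ^ 2 := by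
  have : a (i s + j y) = i (α • s + r y) + j (T y) := by
    rw [map_add, h.ai, h.aj, map_add, map_smul, add_assoc]
  rw [this, h.norm_sq]

lemma Block.r_le (h : Block a α r T i j) (ha : ‖a‖ ≤ 1) (hα : ‖α‖ < 1) (y : K) :
    ‖r y‖ ^ 2 ≤ (1 - ‖α‖ ^ 2) * (‖y‖ ^ 2 - ‖T y‖ ^ 2) := by
  have hA : 0 < 1 - ‖α‖ ^ 2 := by
    have := norm_nonneg α
    nlinarith
  set A := 1 - ‖α‖ ^ 2 with hAdef
  have h1 := norm_apply_le a ha (i ((conj α / (A : ℂ)) • r y) + j y)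
  have h2 : ‖a (i ((conj α / (A : ℂ)) • r y) + j y)‖ ^ 2 ≤ ‖i ((conj α / (A : ℂ)) • r y) + j y‖ ^ 2 := by
    have := norm_nonneg (a (i ((conj α / (A : ℂ)) • r y) + j y))
    nlinarith
  rw [h.apply_norm_sq, h.norm_sq] at h2
  have hA' : (A : ℂ) ≠ 0 := by exact_mod_cast hA.ne'
  have e1 : α • (conj α / (A : ℂ)) • r y + r y = ((A : ℂ))⁻¹ • r y := by
    rw [smul_smul]
    nth_rewrite 2 [← one_smul ℂ (r y)]
    rw [← add_smul]
    congr 1
    field_simp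
    rw [Complex.mul_conj']
    rw [hAdef]
    push_cast
    ring
  rw [e1, norm_smul, norm_smul, norm_inv, norm_div, RCLike.norm_conj, Complex.norm_real,
    Real.norm_eq_abs, abs_of_pos hA] at h2
  have h3 : (A⁻¹ * ‖r y‖) ^ 2 - (‖α‖ / A * ‖r y‖) ^ 2 = A⁻¹ * ‖r y‖ ^ 2 := by
    field_simp
    rw [hAdef]
    ring
  have h4 : A⁻¹ * ‖r y‖ ^ 2 ≤ ‖y‖ ^ 2 - ‖T y‖ ^ 2 := by linarith
  calc ‖r y‖ ^ 2 = A * (A⁻¹ * ‖r y‖ ^ 2) := by field_simp
    _ ≤ A * (‖y‖ ^ 2 - ‖T y‖ ^ 2) := by gcongr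

lemma Block.contraction_T (h : Block a α r T i j) (ha : ‖a‖ ≤ 1) : ‖T‖ ≤ 1 := by
  apply ContinuousLinearMap.opNorm_le_bound _ zero_le_one
  intro y
  have h1 := norm_apply_le a ha (i 0 + j y)
  have h2 : ‖a (i 0 + j y)‖ ^ 2 ≤ ‖i 0 + j y‖ ^ 2 := by
    have := norm_nonneg (a (i 0 + j y))
    nlinarith
  rw [h.apply_norm_sq, h.norm_sq] at h2
  simp only [smul_zero, zero_add, norm_zero] at h2
  have h3 : ‖T y‖ ^ 2 ≤ ‖y‖ ^ 2 := by nlinarith [sq_nonneg ‖r y‖]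
  rw [one_mul]
  exact (pow_le_pow_iff_left₀ (norm_nonneg _) (norm_nonneg _) two_ne_zero).mp h3

lemma Block.nodePoly_eq_zero (h : Block a α r T i j) (hspan : ∀ x, ∃ s y, x = i s + j y)
    (ℓ : List ℂ) (hT : aeval T (nodePoly ℓ) = 0) : aeval a (nodePoly (α :: ℓ)) = 0 := by
  ext x
  obtain ⟨s, y, rfl⟩ := hspan x
  obtain ⟨t, ht⟩ := h.aeval_j_ex (nodePoly ℓ) y
  rw [hT] at ht
  rw [nodePoly_cons, sub_mul, map_sub]
  simp only [map_mul, aeval_X, aeval_C, map_add]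
  simp only [ContinuousLinearMap.sub_apply, ContinuousLinearMap.mul_apply, h.aeval_i, ht,
    ContinuousLinearMap.zero_apply, map_zero, add_zero, map_smul, h.ai, Algebra.algebraMap_eq_smul_one,
    ContinuousLinearMap.smul_apply, ContinuousLinearMap.one_apply]
  simp

/-- If all the numbers are right, domination passes up. -/
lemma Block.dom_up (h : Block a α r T i j) (P Q : ℂ[X]) (hd : ‖P.eval α‖ < ‖Q.eval α‖)
    (hr : ∀ w, ‖r w‖ ^ 2 ≤ (1 - ‖α‖ ^ 2) * (‖w‖ ^ 2 - ‖T w‖ ^ 2)) (s : H₀) (y : K)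
    (hT : ‖aeval T (P1 P Q α) y‖ ≤ ‖aeval T (Q1 P Q α) y‖) :
    ‖aeval a P (i s + j y)‖ ≤ ‖aeval a Q (i s + j y)‖ := by
  have key := h.key P Q s y
  have hδ : 0 < ‖Q.eval α‖ ^ 2 - ‖P.eval α‖ ^ 2 := by
    have := norm_nonneg (P.eval α)
    nlinarith
  have h2 : ‖aeval T (P1 P Q α) y‖ ^ 2 ≤ ‖aeval T (Q1 P Q α) y‖ ^ 2 := by gcongr
  have h3 := hr (aeval T (G P Q α) y)
  have h4 : 0 ≤ (‖Q.eval α‖ ^ 2 - ‖P.eval α‖ ^ 2) *
        (‖aeval a Q (i s + j y)‖ ^ 2 - ‖aeval a P (i s + j y)‖ ^ 2) := by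
    rw [key]
    have := sq_nonneg ‖((‖Q.eval α‖ ^ 2 - ‖P.eval α‖ ^ 2 : ℝ) : ℂ) • s +
          (conj (Q.eval α) • r (aeval T (Q /ₘ (X - C α)) y)
            - conj (P.eval α) • r (aeval T (P /ₘ (X - C α)) y))‖
    linarith
  have h5 := nonneg_of_mul_nonneg_right h4 hδ
  exact (pow_le_pow_iff_left₀ (norm_nonneg _) (norm_nonneg _) two_ne_zero).mp (by linarith)

end Block

section Ext2

variable {K : Type*} [NormedAddCommGroup K] [InnerProductSpace ℂ K] [FiniteDimensional ℂ K]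

@[simp] lemma ext_apply (α : ℂ) (r : K →L[ℂ] ℂ) (T : K →L[ℂ] K) (x : WithLp 2 (ℂ × K)) :
    ext α r T x = WithLp.toLp 2 (α * x.fst + r x.snd, T x.snd) := rfl

@[simp] lemma inl'_apply (s : ℂ) : inl' K s = WithLp.toLp 2 (s, 0) := rfl

@[simp] lemma inr'_apply (y : K) : inr' K y = WithLp.toLp 2 (0, y) := rfl

lemma ext_block (α : ℂ) (r : K →L[ℂ] ℂ) (T : K →L[ℂ] K) :
    Block (ext α r T) α r T (inl' K) (inr' K) where
  orth s y := by simp [WithLp.prod_inner_apply]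
  ai s := by
    apply (WithLp.equiv 2 (ℂ × K)).injective
    ext <;> simp
  aj y := by
    apply (WithLp.equiv 2 (ℂ × K)).injective
    ext <;> simp

lemma ext_span (x : WithLp 2 (ℂ × K)) : ∃ s y, x = inl' K s + inr' K y := by
  refine ⟨x.fst, x.snd, ?_⟩
  apply (WithLp.equiv 2 (ℂ × K)).injective
  ext <;> simp

lemma ext_contraction (α : ℂ) (hα : ‖α‖ ≤ 1) (r : K →L[ℂ] ℂ) (T : K →L[ℂ] K) (hT : ‖T‖ ≤ 1)
    (hr : ∀ w, ‖r w‖ ^ 2 ≤ (1 - ‖α‖ ^ 2) * (‖w‖ ^ 2 - ‖T w‖ ^ 2)) : ‖ext α r T‖ ≤ 1 := by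
  apply ContinuousLinearMap.opNorm_le_bound _ zero_le_one
  intro x
  rw [one_mul]
  obtain ⟨s, y, rfl⟩ := ext_span x
  apply (pow_le_pow_iff_left₀ (norm_nonneg _) (norm_nonneg _) two_ne_zero).mp
  rw [(ext_block α r T).apply_norm_sq, (ext_block α r T).norm_sq]
  have h1 : ‖α • s + r y‖ ≤ ‖α‖ * ‖s‖ + ‖r y‖ := by
    calc _ ≤ ‖α • s‖ + ‖r y‖ := norm_add_le _ _
      _ = _ := by rw [norm_smul]
  have h2 := hr y
  have h3 := norm_apply_le T hT y
  set A := ‖α‖ with hA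
  set S := ‖s‖ with hS
  set R := ‖r y‖ with hR
  have hA0 : 0 ≤ A := norm_nonneg _
  have hS0 : 0 ≤ S := norm_nonneg _
  have hR0 : 0 ≤ R := norm_nonneg _
  have hD : 0 ≤ ‖y‖ ^ 2 - ‖T y‖ ^ 2 := by
    have := norm_nonneg (T y)
    nlinarith
  set D := ‖y‖ ^ 2 - ‖T y‖ ^ 2 with hDdef
  have h4 : (A * S + R) ^ 2 ≤ S ^ 2 + D := by
    rcases eq_or_lt_of_le hα with h | h
    · rw [h] at h2
      have : R = 0 := by nlinarith
      rw [this, h]
      nlinarith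
    · have hA2 : 0 < 1 - A ^ 2 := by nlinarith
      have : 0 ≤ (1 - A ^ 2) * (S ^ 2 + D - (A * S + R) ^ 2) := by
        nlinarith [sq_nonneg ((1 - A ^ 2) * S - A * R)]
      have := nonneg_of_mul_nonneg_right this hA2
      linarith
  have h5 : ‖α • s + r y‖ ^ 2 ≤ (A * S + R) ^ 2 := by gcongr
  linarith

end Ext2

/-- (S1) -/
lemma WD.step {p : ℝ} (hp : p < 1) {n : ℕ} {P Q : ℂ[X]} (h : WD p (n + 1) P Q) {α : ℂ} (hα : ‖α‖ ≤ p)
    (hd : ‖P.eval α‖ < ‖Q.eval α‖) : WD p n (P1 P Q α) (Q1 P Q α) := by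
  intro K _ _ _ T hT ℓ hℓ hnodes hann y
  have hα1 : ‖α‖ ≤ 1 := hα.trans hp.le
  obtain ⟨r, hr, hrw⟩ := exists_functional T hT α hα1 (aeval T (G P Q α) y)
  have hb := ext_block α r T
  have hδ : 0 < ‖Q.eval α‖ ^ 2 - ‖P.eval α‖ ^ 2 := by
    have := norm_nonneg (P.eval α)
    nlinarith
  set δ := ‖Q.eval α‖ ^ 2 - ‖P.eval α‖ ^ 2 with hδdef
  set t := conj (Q.eval α) • r (aeval T (Q /ₘ (X - C α)) y)
            - conj (P.eval α) • r (aeval T (P /ₘ (X - C α)) y) with ht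
  have hδ' : (δ : ℂ) ≠ 0 := by exact_mod_cast hδ.ne'
  have key := hb.key P Q (-((δ : ℂ)⁻¹ * t)) y
  rw [← hδdef, ← ht, hrw] at key
  have e0 : (δ : ℂ) • (-((δ : ℂ)⁻¹ * t)) + t = 0 := by
    rw [smul_eq_mul]
    field_simp
    ring
  rw [e0] at key
  have hdom := h (WithLp 2 (ℂ × K)) (ext α r T) (ext_contraction α hα1 r T hT hr) (α :: ℓ)
    (by simp [hℓ]) (by simpa using ⟨hα, hnodes⟩) (hb.nodePoly_eq_zero ext_span ℓ hann)
    (inl' K (-((δ : ℂ)⁻¹ * t)) + inr' K y)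
  have h2 : ‖aeval (ext α r T) P (inl' K (-((δ : ℂ)⁻¹ * t)) + inr' K y)‖ ^ 2
      ≤ ‖aeval (ext α r T) Q (inl' K (-((δ : ℂ)⁻¹ * t)) + inr' K y)‖ ^ 2 := by gcongr
  have h3 : 0 ≤ δ * (‖aeval (ext α r T) Q (inl' K (-((δ : ℂ)⁻¹ * t)) + inr' K y)‖ ^ 2
    - ‖aeval (ext α r T) P (inl' K (-((δ : ℂ)⁻¹ * t)) + inr' K y)‖ ^ 2) :=
    mul_nonneg hδ.le (by linarith)
  rw [key] at h3
  simp only [norm_zero] at h3
  exact (pow_le_pow_iff_left₀ (norm_nonneg _) (norm_nonneg _) two_ne_zero).mp (by linarith)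

/-- (S3) -/
lemma EX.up {ℓ : List ℂ} {P Q : ℂ[X]} {α : ℂ} (hα : ‖α‖ ≤ 1)
    (hd : ‖P.eval α‖ < ‖Q.eval α‖) (h : EX ℓ (P1 P Q α) (Q1 P Q α)) : EX (α :: ℓ) P Q := by
  obtain ⟨K, i1, i2, i3, T, hT, hann, y, hy, heq⟩ := h
  obtain ⟨r, hr, hrw⟩ := exists_functional T hT α hα (aeval T (G P Q α) y)
  have hb := ext_block α r T
  have hδ : 0 < ‖Q.eval α‖ ^ 2 - ‖P.eval α‖ ^ 2 := by
    have := norm_nonneg (P.eval α)
    nlinarith
  set δ := ‖Q.eval α‖ ^ 2 - ‖P.eval α‖ ^ 2 with hδdef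
  set t := conj (Q.eval α) • r (aeval T (Q /ₘ (X - C α)) y)
            - conj (P.eval α) • r (aeval T (P /ₘ (X - C α)) y) with ht
  have hδ' : (δ : ℂ) ≠ 0 := by exact_mod_cast hδ.ne'
  have key := hb.key P Q (-((δ : ℂ)⁻¹ * t)) y
  rw [← hδdef, ← ht, hrw] at key
  have e0 : (δ : ℂ) • (-((δ : ℂ)⁻¹ * t)) + t = 0 := by
    rw [smul_eq_mul]
    field_simp
    ring
  rw [e0, heq] at key
  simp only [norm_zero] at key
  refine ⟨WithLp 2 (ℂ × K), inferInstance, inferInstance, inferInstance, ext α r T,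
    ext_contraction α hα r T hT hr, hb.nodePoly_eq_zero ext_span ℓ hann,
    inl' K (-((δ : ℂ)⁻¹ * t)) + inr' K y, ?_, ?_⟩
  · intro h0
    have := congrArg (fun x => x.snd) h0
    simp at this
    exact hy this
  · have h5 : δ * (‖aeval (ext α r T) Q (inl' K (-((δ : ℂ)⁻¹ * t)) + inr' K y)‖ ^ 2
      - ‖aeval (ext α r T) P (inl' K (-((δ : ℂ)⁻¹ * t)) + inr' K y)‖ ^ 2) = 0 := by
      rw [key]; ring
    have h6 := (mul_eq_zero.mp h5).resolve_left hδ.ne'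
    exact (pow_left_inj₀ (norm_nonneg _) (norm_nonneg _) two_ne_zero).mp (by linarith)


section Down

variable {H : Type} [NormedAddCommGroup H] [InnerProductSpace ℂ H] [FiniteDimensional ℂ H]

/-- The kernel of `a - α`. -/
noncomputable def ker' (a : H →L[ℂ] H) (α : ℂ) : Submodule ℂ H :=
  LinearMap.ker ((a - α • ContinuousLinearMap.id ℂ H : H →L[ℂ] H) : H →ₗ[ℂ] H)

lemma mem_ker' {a : H →L[ℂ] H} {α : ℂ} {x : H} : x ∈ ker' a α ↔ a x = α • x := by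
  simp [ker', LinearMap.mem_ker, sub_eq_zero]

lemma down_block (a : H →L[ℂ] H) (α : ℂ) :
    Block a α
      ((ker' a α).orthogonalProjection.comp (a.comp (ker' a α)ᗮ.subtypeL))
      ((ker' a α)ᗮ.orthogonalProjection.comp (a.comp (ker' a α)ᗮ.subtypeL))
      (ker' a α).subtypeₗᵢ (ker' a α)ᗮ.subtypeₗᵢ where
  orth s y := Submodule.inner_right_of_mem_orthogonal s.2 y.2
  ai s := mem_ker'.mp s.2
  aj y := by
    simp

end Down

/-- (S2) -/
lemma EX.down {p : ℝ} {n : ℕ} {ℓ : List ℂ} (hℓ : ℓ.length = n) (hnodes : ∀ z ∈ ℓ, ‖z‖ ≤ p)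
    {P Q : ℂ[X]} {α : ℂ} (hα : ‖α‖ < 1) (hd : ‖P.eval α‖ < ‖Q.eval α‖)
    (hwd : WD p n (P1 P Q α) (Q1 P Q α)) (h : EX (α :: ℓ) P Q) :
    EX ℓ (P1 P Q α) (Q1 P Q α) := by
  obtain ⟨H, i1, i2, i3, a, ha, hann, x, hx, heq⟩ := h
  have hb := down_block a α
  set r := ((ker' a α).orthogonalProjection.comp (a.comp (ker' a α)ᗮ.subtypeL)) with hr
  set T := ((ker' a α)ᗮ.orthogonalProjection.comp (a.comp (ker' a α)ᗮ.subtypeL)) with hTdef
  have hT : ‖T‖ ≤ 1 := hb.contraction_T ha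
  have hannT : aeval T (nodePoly ℓ) = 0 := by
    ext y
    obtain ⟨s, hs⟩ := hb.aeval_j_ex (nodePoly ℓ) y
    have h1 : aeval a (nodePoly ℓ) ((ker' a α)ᗮ.subtypeₗᵢ y) ∈ ker' a α := by
      rw [mem_ker']
      have h2 : aeval a (nodePoly (α :: ℓ)) ((ker' a α)ᗮ.subtypeₗᵢ y) = 0 := by
        rw [hann]; rfl
      rw [nodePoly_cons] at h2
      simpa [sub_mul, sub_eq_zero] using h2
    have h3 : ((aeval T (nodePoly ℓ) y : (ker' a α)ᗮ) : H) ∈ ker' a α := by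
      have h4 : ((aeval T (nodePoly ℓ) y : (ker' a α)ᗮ) : H)
        = aeval a (nodePoly ℓ) ((ker' a α)ᗮ.subtypeₗᵢ y) - (s : H) := by
        rw [hs]; simp
      rw [h4]
      exact Submodule.sub_mem _ h1 s.2
    have h5 : ((aeval T (nodePoly ℓ) y : (ker' a α)ᗮ) : H) = 0 := by
      have h6 := Submodule.inner_right_of_mem_orthogonal h3 (aeval T (nodePoly ℓ) y).2
      simpa using h6
    exact_mod_cast h5
  -- decompose x
  obtain ⟨s, hs, y, hy, hxsy⟩ := (ker' a α).exists_add_mem_mem_orthogonal x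
  have hx' : x = (ker' a α).subtypeₗᵢ ⟨s, hs⟩ + (ker' a α)ᗮ.subtypeₗᵢ ⟨y, hy⟩ := by
    simpa using hxsy
  have hδ : 0 < ‖Q.eval α‖ ^ 2 - ‖P.eval α‖ ^ 2 := by
    have := norm_nonneg (P.eval α)
    nlinarith
  have key := hb.key P Q ⟨s, hs⟩ ⟨y, hy⟩
  rw [← hx', heq] at key
  have k1 := hwd _ T hT ℓ hℓ hnodes hannT ⟨y, hy⟩
  have k2 : ‖aeval T (P1 P Q α) ⟨y, hy⟩‖ ^ 2 ≤ ‖aeval T (Q1 P Q α) ⟨y, hy⟩‖ ^ 2 := by gcongr
  have k3 := hb.r_le ha hα (aeval T (G P Q α) ⟨y, hy⟩)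
  have k4 := sq_nonneg ‖((‖Q.eval α‖ ^ 2 - ‖P.eval α‖ ^ 2 : ℝ) : ℂ) • (⟨s, hs⟩ : ker' a α) +
          (conj (Q.eval α) • r (aeval T (Q /ₘ (X - C α)) ⟨y, hy⟩)
            - conj (P.eval α) • r (aeval T (P /ₘ (X - C α)) ⟨y, hy⟩))‖
  refine ⟨_, inferInstance, inferInstance, inferInstance, T, hT, hannT, ⟨y, hy⟩, ?_, ?_⟩
  · intro hy0
    rw [hy0] at k4 key
    simp only [map_zero, smul_zero, sub_zero, add_zero, norm_zero] at key
    have : ‖((‖Q.eval α‖ ^ 2 - ‖P.eval α‖ ^ 2 : ℝ) : ℂ) • (⟨s, hs⟩ : ker' a α)‖ ^ 2 = 0 := by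
      nlinarith
    have h7 := norm_eq_zero.mp (pow_eq_zero_iff (two_ne_zero) |>.mp this)
    rcases smul_eq_zero.mp h7 with h8 | h8
    · exact hδ.ne' (by exact_mod_cast h8)
    · apply hx
      rw [hx', hy0, h8]
      simp
  · exact (pow_left_inj₀ (norm_nonneg _) (norm_nonneg _) two_ne_zero).mp (by linarith)

lemma nodePoly_monic (ℓ : List ℂ) : (nodePoly ℓ).Monic := by
  induction ℓ with
  | nil => simp
  | cons z ℓ ih => rw [nodePoly_cons]; exact (monic_X_sub_C z).mul ih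

lemma nodePoly_natDegree (ℓ : List ℂ) : (nodePoly ℓ).natDegree = ℓ.length := by
  induction ℓ with
  | nil => simp
  | cons z ℓ ih =>
    rw [nodePoly_cons, (monic_X_sub_C z).natDegree_mul (nodePoly_monic ℓ), ih]
    simp [add_comm]

lemma nodePoly_degree (ℓ : List ℂ) : (nodePoly ℓ).degree = ℓ.length := by
  rw [degree_eq_natDegree (nodePoly_monic ℓ).ne_zero, nodePoly_natDegree]

lemma nodePoly_eval_of_mem {ℓ : List ℂ} {z : ℂ} (hz : z ∈ ℓ) : (nodePoly ℓ).eval z = 0 := by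
  induction ℓ with
  | nil => simp at hz
  | cons w ℓ ih =>
    rw [nodePoly_cons, eval_mul]
    rcases List.mem_cons.mp hz with h | h
    · simp [h]
    · simp [ih h]

lemma exists_isometry (K : Type) [NormedAddCommGroup K] [InnerProductSpace ℂ K]
    [FiniteDimensional ℂ K] (n : ℕ) (hn : Module.finrank ℂ K ≤ n) :
    Nonempty (K →ₗᵢ[ℂ] EuclideanSpace ℂ (Fin n)) := by
  let b := stdOrthonormalBasis ℂ K
  let e : Fin (Module.finrank ℂ K) → EuclideanSpace ℂ (Fin n) :=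
    fun i => EuclideanSpace.single (Fin.castLE hn i) (1 : ℂ)
  have he : Orthonormal ℂ e :=
    EuclideanSpace.orthonormal_single.comp (Fin.castLE hn) (Fin.castLE_injective hn)
  let f := b.toBasis.constr ℂ e
  refine ⟨f.isometryOfOrthonormal (v := b.toBasis) (by simpa using b.orthonormal) ?_⟩
  have : (f ∘ b.toBasis) = e := by
    funext i
    simp only [f, Function.comp_apply]
    rw [Module.Basis.constr_basis]
  rw [this]
  exact he

/-- Reduction to dimension `ℓ.length`. -/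
lemma cyclic {H : Type} [NormedAddCommGroup H] [InnerProductSpace ℂ H] [FiniteDimensional ℂ H]
    (a : H →L[ℂ] H) (ha : ‖a‖ ≤ 1) (ℓ : List ℂ) (hne : ℓ ≠ []) (hnodes : ∀ z ∈ ℓ, ‖z‖ ≤ 1)
    (hann : aeval a (nodePoly ℓ) = 0) (x : H) :
    ∃ (a' : EuclideanSpace ℂ (Fin ℓ.length) →L[ℂ] EuclideanSpace ℂ (Fin ℓ.length))
      (x' : EuclideanSpace ℂ (Fin ℓ.length)), ‖a'‖ ≤ 1 ∧ aeval a' (nodePoly ℓ) = 0 ∧
      ∀ q : ℂ[X], ‖aeval a' q x'‖ = ‖aeval a q x‖ := by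
  obtain ⟨z₀, ℓ', rfl⟩ := List.exists_cons_of_ne_nil hne
  set ℓ := z₀ :: ℓ' with hℓ
  set n := ℓ.length with hn
  have hn1 : 1 ≤ n := by simp [hn, hℓ]
  let ev : ℂ[X] →ₗ[ℂ] H :=
    { toFun := fun q => aeval a q x
      map_add' := by intro p q; simp
      map_smul' := by intro c q; simp }
  let K : Submodule ℂ H := (degreeLT ℂ n).map ev
  have hKmem : ∀ q : ℂ[X], aeval a q x ∈ K := by
    intro q
    refine ⟨q %ₘ nodePoly ℓ, ?_, ?_⟩
    · show q %ₘ nodePoly ℓ ∈ degreeLT ℂ n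
      rw [mem_degreeLT]
      have := degree_modByMonic_lt q (nodePoly_monic ℓ)
      rwa [nodePoly_degree] at this
    · show aeval a (q %ₘ nodePoly ℓ) x = aeval a q x
      have := modByMonic_add_div q (nodePoly ℓ)
      conv_rhs => rw [← this]
      simp [hann]
  have hKinv : ∀ y ∈ K, a y ∈ K := by
    rintro y ⟨q, hq, rfl⟩
    have : a (ev q) = aeval a (X * q) x := by simp [ev]
    rw [this]
    exact hKmem _
  have hKdim : Module.finrank ℂ K ≤ n := by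
    have h1 : Module.finrank ℂ (degreeLT ℂ n) = n := by
      rw [LinearEquiv.finrank_eq (degreeLTEquiv ℂ n)]
      simp
    have : Module.Finite ℂ (degreeLT ℂ n) := Module.Finite.equiv (degreeLTEquiv ℂ n).symm
    calc Module.finrank ℂ K ≤ Module.finrank ℂ (degreeLT ℂ n) := Submodule.finrank_map_le ev _
      _ = n := h1
  obtain ⟨V⟩ := exists_isometry K n hKdim
  let aK : K →L[ℂ] K := LinearMap.toContinuousLinearMap
    ((a : H →ₗ[ℂ] H).restrict (fun y hy => hKinv y hy))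
  have haK : ∀ y : K, ((aK y : K) : H) = a y := fun y => rfl
  have haKq : ∀ (q : ℂ[X]) (y : K), ((aeval aK q y : K) : H) = aeval a q y := by
    intro q
    induction q using Polynomial.induction_on' with
    | add p q hp hq => intro y; simp [hp, hq]
    | monomial m c =>
      induction m generalizing c with
      | zero => intro y; simp
      | succ m ih =>
        intro y
        have : (monomial (m + 1) c : ℂ[X]) = X * monomial m c := by rw [X_mul_monomial]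
        rw [this, aeval_X_mul', aeval_X_mul', haK, ih]
  let R : Submodule ℂ (EuclideanSpace ℂ (Fin n)) := LinearMap.range V.toLinearMap
  let Vc : K →L[ℂ] EuclideanSpace ℂ (Fin n) := V.toContinuousLinearMap
  let W := ContinuousLinearMap.adjoint Vc
  have hWV : ∀ y, W (V y) = y := by
    intro y
    apply ext_inner_left ℂ
    intro z
    rw [ContinuousLinearMap.adjoint_inner_right]
    exact V.inner_map_map z y
  let a' : EuclideanSpace ℂ (Fin n) →L[ℂ] EuclideanSpace ℂ (Fin n) :=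
    Vc ∘L aK ∘L W + z₀ • (ContinuousLinearMap.id ℂ _ - Vc ∘L W)
  have hb : Block a' z₀ (0 : K →L[ℂ] Rᗮ) aK Rᗮ.subtypeₗᵢ V := by
    constructor
    · intro s y
      exact Submodule.inner_left_of_mem_orthogonal (K := R) ⟨y, rfl⟩ s.2
    · intro s
      have hW0 : W (s : EuclideanSpace ℂ (Fin n)) = 0 := by
        apply ext_inner_left ℂ
        intro z
        rw [ContinuousLinearMap.adjoint_inner_right]
        simp only [inner_zero_right]
        exact Submodule.inner_right_of_mem_orthogonal (K := R) ⟨z, rfl⟩ s.2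
      simp [a', hW0]
    · intro y
      simp only [a', ContinuousLinearMap.add_apply, ContinuousLinearMap.comp_apply, hWV,
        ContinuousLinearMap.smul_apply, ContinuousLinearMap.sub_apply,
        ContinuousLinearMap.id_apply]
      simp [Vc]
  have hspan : ∀ v, ∃ (s : Rᗮ) (y : K), v = Rᗮ.subtypeₗᵢ s + V y := by
    intro v
    obtain ⟨s, ⟨y, hy⟩, t, ht, hv⟩ := R.exists_add_mem_mem_orthogonal v
    refine ⟨⟨t, ht⟩, y, ?_⟩
    rw [hv, ← hy, add_comm]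
    rfl
  have hVq : ∀ (q : ℂ[X]) (y : K), aeval a' q (V y) = V (aeval aK q y) := by
    intro q y
    rw [hb.aeval_j]
    simp
  have hxK : x ∈ K := by simpa using hKmem 1
  refine ⟨a', V ⟨x, hxK⟩, ?_, ?_, ?_⟩
  · apply ContinuousLinearMap.opNorm_le_bound _ zero_le_one
    intro v
    obtain ⟨s, y, rfl⟩ := hspan v
    rw [one_mul]
    apply (pow_le_pow_iff_left₀ (norm_nonneg _) (norm_nonneg _) two_ne_zero).mp
    rw [hb.apply_norm_sq, hb.norm_sq]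
    have h1 : ‖z₀ • s + (0 : K →L[ℂ] Rᗮ) y‖ ≤ ‖s‖ := by
      simp only [ContinuousLinearMap.zero_apply, add_zero, norm_smul]
      have := hnodes z₀ (by simp [hℓ])
      have h2 := norm_nonneg s
      nlinarith
    have h2 : ‖aK y‖ ≤ ‖y‖ := by
      have := norm_apply_le a ha (y : H)
      simpa [haK] using this
    gcongr
  · ext1 v
    obtain ⟨s, y, rfl⟩ := hspan v
    rw [map_add, hb.aeval_i, hVq]
    have h1 : (nodePoly ℓ).eval z₀ = 0 := nodePoly_eval_of_mem (by simp [hℓ])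
    have h2 : aeval aK (nodePoly ℓ) y = 0 := by
      apply Subtype.ext
      rw [haKq, hann]
      rfl
    rw [h1, h2]
    simp
  · intro q
    rw [hVq, V.norm_map]
    have := haKq q ⟨x, hxK⟩
    rw [Submodule.coe_norm, this]

end Pool.Agent.Helper40.Ptak
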